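import Mathlib

/-!
Packing in a finite dimensional real normed space.
-/

set_option autoImplicit false

namespace Pool.Agent.FCM

open MeasureTheory Metric Set Module
open scoped ENNReal

variable {E : Type*} [NormedAddCommGroup E] [NormedSpace ℝ E] [FiniteDimensional ℝ E]

/-- a `t`-separated set in the ball of radius `M` has at most `(2 M / t + 1) ^ dim` elements -/
theorem card_le_of_separated (s : Finset E) (t M : ℝ) (ht : 0 < t) (hM : 0 ≤ M)
    (hs : ∀ c ∈ s, ‖c‖ ≤ M) (h : ∀ c ∈ s, ∀ d ∈ s, c ≠ d → t ≤ ‖c - d‖) :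
    (s.card : ℝ) ≤ (2 * M / t + 1) ^ finrank ℝ E := by
  borelize E
  let μ : Measure E := Measure.addHaar
  have δpos : 0 < t / 2 := by positivity
  have ρpos : 0 < M + t / 2 := by positivity
  set A := ⋃ c ∈ s, ball (c : E) (t / 2) with hA
  have D : Set.Pairwise (s : Set E) (Function.onFun Disjoint fun c => ball (c : E) (t / 2)) := by
    rintro c hc d hd hcd
    apply ball_disjoint_ball
    rw [dist_eq_norm]
    have := h c hc d hd hcd
    linarith
  have A_subset : A ⊆ ball (0 : E) (M + t / 2) := by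
    refine iUnion₂_subset fun x hx => ?_
    apply ball_subset_ball'
    have := hs x hx
    rw [dist_zero_right]
    linarith
  have I :
    (s.card : ℝ≥0∞) * ENNReal.ofReal ((t / 2) ^ finrank ℝ E) * μ (ball 0 1) ≤
      ENNReal.ofReal ((M + t / 2) ^ finrank ℝ E) * μ (ball 0 1) :=
    calc
      (s.card : ℝ≥0∞) * ENNReal.ofReal ((t / 2) ^ finrank ℝ E) * μ (ball 0 1) = μ A := by
        rw [hA, measure_biUnion_finset D fun c _ => measurableSet_ball]
        simp only [μ.addHaar_ball_of_pos _ δpos]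
        simp only [Finset.sum_const, nsmul_eq_mul, mul_assoc]
      _ ≤ μ (ball (0 : E) (M + t / 2)) := measure_mono A_subset
      _ = ENNReal.ofReal ((M + t / 2) ^ finrank ℝ E) * μ (ball 0 1) := by
        simp only [μ.addHaar_ball_of_pos _ ρpos]
  have J : (s.card : ℝ≥0∞) * ENNReal.ofReal ((t / 2) ^ finrank ℝ E) ≤
      ENNReal.ofReal ((M + t / 2) ^ finrank ℝ E) :=
    (ENNReal.mul_le_mul_iff_left (measure_ball_pos _ _ zero_lt_one).ne' measure_ball_lt_top.ne).1 I
  have K : (s.card : ℝ) * (t / 2) ^ finrank ℝ E ≤ (M + t / 2) ^ finrank ℝ E := by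
    have h1 := ENNReal.toReal_le_of_le_ofReal (pow_nonneg ρpos.le _) J
    rw [ENNReal.toReal_mul, ENNReal.toReal_ofReal (pow_nonneg δpos.le _),
      ENNReal.toReal_natCast] at h1
    exact h1
  have e : 2 * M / t + 1 = (M + t / 2) / (t / 2) := by field_simp
  rw [e, div_pow, le_div_iff₀ (pow_pos δpos _)]
  exact K

end Pool.Agent.FCM
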