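import Pool.Agent.Helper53_FCM.Defs

/-!
Few distances force complex multiplication: the field of multipliers.
-/

set_option autoImplicit false

namespace Pool.Agent.FCM

open Module Complex ComplexConjugate

variable {d : ℕ} {v : Fin d → ℂ}

/-- the multipliers of `V` -/
def Mul (V : Submodule ℚ ℂ) : Set ℂ := {w | ∀ u ∈ V, w * u ∈ V}

theorem Mul.inv (v : Fin d → ℂ) {w : ℂ} (hw : w ∈ Mul (VQ v)) : w⁻¹ ∈ Mul (VQ v) := by
  rcases eq_or_ne w 0 with h0 | h0
  · rw [h0, inv_zero, ← h0]
    exact hw
  have := finite_VQ v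
  let m : VQ v →ₗ[ℚ] VQ v :=
    { toFun := fun z => ⟨w * z, hw z z.2⟩
      map_add' := fun a b => by
        apply Subtype.ext
        show w * ((a : ℂ) + b) = w * a + w * b
        ring
      map_smul' := fun q a => by
        apply Subtype.ext
        show w * (q • (a : ℂ)) = q • (w * (a : ℂ))
        rw [Rat.smul_def, Rat.smul_def]
        ring }
  have hm : Function.Injective m := by
    intro a b hab
    have h3 : w * (a : ℂ) = w * (b : ℂ) := congrArg Subtype.val hab
    exact Subtype.ext (mul_left_cancel₀ h0 h3)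
  have hm' : Function.Surjective m := LinearMap.injective_iff_surjective.1 hm
  intro z hz
  obtain ⟨a, ha⟩ := hm' ⟨z, hz⟩
  have h3 : w * (a : ℂ) = z := congrArg Subtype.val ha
  rw [← h3, inv_mul_cancel_left₀ h0]
  exact a.2

/-- the field of multipliers -/
noncomputable def KK (v : Fin d → ℂ) : Subfield ℂ where
  carrier := Mul (VQ v)
  mul_mem' := fun {a b} ha hb u hu => by
    rw [mul_assoc]
    exact ha _ (hb u hu)
  one_mem' := fun u hu => by rwa [one_mul]
  add_mem' := fun {a b} ha hb u hu => by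
    rw [add_mul]
    exact Submodule.add_mem _ (ha u hu) (hb u hu)
  zero_mem' := fun u _ => by
    rw [zero_mul]
    exact Submodule.zero_mem _
  neg_mem' := fun {a} ha u hu => by
    rw [neg_mul]
    exact Submodule.neg_mem _ (ha u hu)
  inv_mem' := fun _ ha => Mul.inv v ha

theorem mem_KK {w : ℂ} : w ∈ KK v ↔ ∀ u ∈ VQ v, w * u ∈ VQ v := Iff.rfl

theorem conj_KK {e : ℂ} (he : e ≠ 0) (hR : Ref (VQ v) e) {w : ℂ} (hw : w ∈ KK v) :
    conj w ∈ KK v := by
  intro u hu
  have hc : conj e ≠ 0 := (map_ne_zero _).2 he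
  have h1 := hR _ (mem_KK.1 hw _ (hR u hu))
  have h2 : e / conj e * conj (w * (e / conj e * conj u)) = conj w * u := by
    rw [map_mul, map_mul, map_div₀, conj_conj, conj_conj]
    field_simp
  rwa [h2] at h1

/-- the real multipliers -/
noncomputable def FF (v : Fin d → ℂ) : Subfield ℝ := (KK v).comap ofRealHom

theorem mem_FF {r : ℝ} : r ∈ FF v ↔ (r : ℂ) ∈ KK v := Iff.rfl

theorem re_FF {e : ℂ} (he : e ≠ 0) (hR : Ref (VQ v) e) {w : ℂ} (hw : w ∈ KK v) :
    w.re ∈ FF v := by
  rw [mem_FF]
  have h1 : (w.re : ℂ) = (w + conj w) * 2⁻¹ := by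
    rw [add_conj]
    push_cast
    ring
  rw [h1]
  exact mul_mem (add_mem hw (conj_KK he hR hw)) (inv_mem (ofNat_mem _ 2))

theorem im_FF {e τ : ℂ} (he : e ≠ 0) (hR : Ref (VQ v) e) {t : ℝ} (ht : t ≠ 0)
    (hτ : τ = (t : ℂ) * I) (hj : τ ∈ KK v) {w : ℂ} (hw : w ∈ KK v) :
    w.im / t ∈ FF v := by
  rw [mem_FF]
  have ht' : (t : ℂ) ≠ 0 := by exact_mod_cast ht
  have h1 : ((w.im / t : ℝ) : ℂ) = (w - conj w) * (2⁻¹ * τ⁻¹) := by
    rw [sub_conj, hτ]
    push_cast
    field_simp
  rw [h1]
  exact mul_mem (sub_mem hw (conj_KK he hR hw)) (mul_mem (inv_mem (ofNat_mem _ 2)) (inv_mem hj))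

/-- the coordinates of a point of `V` -/
theorem coord {e τ : ℂ} (he : e ≠ 0) (hR : Ref (VQ v) e) {t : ℝ} (ht : t ≠ 0)
    (hτ : τ = (t : ℂ) * I) (hj : τ ∈ KK v) {u : ℂ} (hu : u ∈ VQ v) :
    (((u / e).re : ℝ) : ℂ) * e ∈ VQ v ∧ (((u / e).im / t : ℝ) : ℂ) * e ∈ VQ v := by
  have hc : conj e ≠ 0 := (map_ne_zero _).2 he
  have ht' : (t : ℂ) ≠ 0 := by exact_mod_cast ht
  have h0 := hR u hu
  have h2 : (2⁻¹ : ℂ) ∈ KK v := inv_mem (ofNat_mem _ 2)
  have e1 : conj (u / e) = conj u / conj e := map_div₀ _ _ _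
  constructor
  · have h1 : (((u / e).re : ℝ) : ℂ) * e = 2⁻¹ * (u + e / conj e * conj u) := by
      have h3 : (((u / e).re : ℝ) : ℂ) = (u / e + conj (u / e)) / 2 := by
        rw [add_conj]
        push_cast
        ring
      rw [h3, e1]
      field_simp
    rw [h1]
    exact mem_KK.1 h2 _ (Submodule.add_mem _ hu h0)
  · have h1 : (((u / e).im / t : ℝ) : ℂ) * e = (2⁻¹ * τ⁻¹) * (u - e / conj e * conj u) := by
      have h3 : (((u / e).im : ℝ) : ℂ) = (u / e - conj (u / e)) / (2 * I) := by
        rw [sub_conj]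
        push_cast
        field_simp
      push_cast
      rw [h3, e1, hτ]
      field_simp
    rw [h1]
    exact mem_KK.1 (mul_mem h2 (inv_mem hj)) _ (Submodule.sub_mem _ hu h0)

/-- `V = zK`, or the lines with a reflection lie in the zero set of a polynomial of degree two -/
theorem alg (hv : LinearIndependent ℚ v) {e ζ : ℂ} (he : e ≠ 0) (hR : Ref (VQ v) e)
    (hn : ‖ζ‖ = 1) (h1 : ζ ≠ 1) (h2 : ζ ≠ -1) (hζ : ∀ z ∈ VQ v, ζ * z ∈ VQ v) :
    (∃ y : ℂ, y ≠ 0 ∧ y ∈ ln e ∧ ∀ w : ℂ, y * w ∈ VQ v ↔ w ∈ KK v) ∨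
    (∃ p : MvPolynomial (Fin d) ℝ, p ≠ 0 ∧ p.totalDegree ≤ 2 ∧ ∀ x : Fin d → ℤ, x ≠ 0 →
      Ref (VQ v) (pt v x) → MvPolynomial.eval (fun i => (x i : ℝ)) p = 0) := by
  have him : ζ.im ≠ 0 := by
    intro h3
    have h4 : ζ = (ζ.re : ℂ) := Complex.ext (by simp) (by rw [h3]; simp)
    rw [h4, norm_real, Real.norm_eq_abs] at hn
    rcases (abs_eq (by norm_num : (0 : ℝ) ≤ 1)).1 hn with h5 | h5
    · apply h1
      rw [h4, h5]
      simp
    · apply h2
      rw [h4, h5]
      simp
  set t : ℝ := 2 * ζ.im with ht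
  have ht0 : t ≠ 0 := mul_ne_zero two_ne_zero him
  have ht' : (t : ℂ) ≠ 0 := by exact_mod_cast ht0
  have hζK : ζ ∈ KK v := hζ
  set τ : ℂ := (t : ℂ) * I with hτ
  have hj : τ ∈ KK v := by
    have h3 : τ = ζ - conj ζ := by
      rw [sub_conj]
    rw [h3]
    exact sub_mem hζK (conj_KK he hR hζK)
  have hτ0 : τ ≠ 0 := mul_ne_zero ht' I_ne_zero
  -- the real coordinates on the line of `e`
  let S : Submodule (FF v) ℝ :=
    { carrier := {s | (s : ℂ) * e ∈ VQ v}
      add_mem' := fun {a b} ha hb => by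
        show ((a + b : ℝ) : ℂ) * e ∈ VQ v
        rw [ofReal_add, add_mul]
        exact Submodule.add_mem _ ha hb
      zero_mem' := by
        show ((0 : ℝ) : ℂ) * e ∈ VQ v
        rw [ofReal_zero, zero_mul]
        exact Submodule.zero_mem _
      smul_mem' := fun r s hs => by
        show (((r : ℝ) * s : ℝ) : ℂ) * e ∈ VQ v
        rw [ofReal_mul, mul_assoc]
        exact mem_KK.1 (mem_FF.1 r.2) _ hs }
  have hSmem : ∀ s : ℝ, s ∈ S ↔ (s : ℂ) * e ∈ VQ v := fun s => Iff.rfl
  by_cases hS0 : ∀ s ∈ S, s = 0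
  · -- `V = 0`
    right
    refine ⟨1, one_ne_zero, by rw [MvPolynomial.totalDegree_one]; exact Nat.zero_le _, ?_⟩
    intro x hx _
    exfalso
    apply pt_ne_zero hv hx
    obtain ⟨h3, h4⟩ := coord he hR ht0 hτ hj (pt_mem v x)
    have h5 := hS0 _ h3
    have h6 := hS0 _ h4
    rw [div_eq_zero_iff, or_iff_left ht0] at h6
    have h7 : pt v x / e = 0 := Complex.ext h5 h6
    rcases div_eq_zero_iff.1 h7 with h8 | h8
    · exact h8
    · exact absurd h8 he
  · push Not at hS0
    obtain ⟨y1, hy1, hy10⟩ := hS0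
    have hy10' : (y1 : ℂ) ≠ 0 := by exact_mod_cast hy10
    by_cases hdim : ∀ s ∈ S, ∃ r ∈ FF v, s = r * y1
    · -- `V = zK`
      left
      refine ⟨(y1 : ℂ) * e, mul_ne_zero hy10' he, mem_ln.2 ⟨y1, rfl⟩, fun w => ?_⟩
      constructor
      · intro hw
        obtain ⟨h3, h4⟩ := coord he hR ht0 hτ hj hw
        have e1 : (y1 : ℂ) * e * w / e = (y1 : ℂ) * w := by field_simp
        rw [e1] at h3 h4
        have e2 : ((y1 : ℂ) * w).re = y1 * w.re := by simp
        have e3 : ((y1 : ℂ) * w).im = y1 * w.im := by simp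
        rw [e2] at h3
        rw [e3] at h4
        obtain ⟨r1, hr1, hr1'⟩ := hdim _ h3
        obtain ⟨r2, hr2, hr2'⟩ := hdim _ h4
        have e4 : w.re = r1 := by
          have : y1 * w.re = y1 * r1 := by rw [hr1', mul_comm]
          exact mul_left_cancel₀ hy10 this
        have e5 : w.im = r2 * t := by
          rw [div_eq_iff ht0] at hr2'
          have : y1 * w.im = y1 * (r2 * t) := by rw [hr2']; ring
          exact mul_left_cancel₀ hy10 this
        have e6 : w = (r1 : ℂ) + (r2 : ℂ) * τ := by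
          rw [hτ, ← mul_assoc, ← ofReal_mul, ← e4, ← e5]
          exact (re_add_im w).symm
        rw [e6]
        exact add_mem (mem_FF.1 hr1) (mul_mem (mem_FF.1 hr2) hj)
      · intro hw
        rw [mul_comm]
        exact mem_KK.1 hw _ hy1
    · -- the polynomial
      right
      push Not at hdim
      obtain ⟨y2, hy2, hy2'⟩ := hdim
      have hnot : y2 ∉ Submodule.span (FF v) {y1} := by
        intro h3
        obtain ⟨r, hr⟩ := Submodule.mem_span_singleton.1 h3
        exact hy2' r r.2 hr.symm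
      obtain ⟨g, hg2, hg1⟩ := Submodule.exists_dual_map_eq_bot_of_notMem hnot inferInstance
      have hg1' : g y1 = 0 := by
        have h3 : g y1 ∈ (Submodule.span (FF v) {y1}).map g :=
          Submodule.mem_map_of_mem (Submodule.mem_span_singleton_self y1)
        rw [hg1] at h3
        exact h3
      let G : ℝ →+ ℝ := ((FF v).subtype.toAddMonoidHom).comp g.toAddMonoidHom
      have hG : ∀ s, G s = ((g s : FF v) : ℝ) := fun s => rfl
      have hGr : ∀ r ∈ FF v, ∀ s, G (r * s) = r * G s := by
        intro r hr s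
        have h3 : r * s = (⟨r, hr⟩ : FF v) • s := rfl
        rw [hG, hG, h3, map_smul]
        rfl
      have hG1 : G y1 = 0 := by
        rw [hG, hg1']
        rfl
      have hG2 : G y2 ≠ 0 := by
        rw [hG]
        intro h3
        exact hg2 (Subtype.ext h3)
      have hGq : ∀ (q : ℚ) (s : ℝ), G ((q : ℝ) * s) = (q : ℝ) * G s := by
        intro q s
        have := map_ratCast_smul G ℝ ℝ q s
        simpa only [smul_eq_mul] using this
      set a : Fin d → ℝ := fun i => (v i / e).re with ha
      set b : Fin d → ℝ := fun i => (v i / e).im / t with hb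
      -- a linear form
      let lf : (Fin d → ℝ) → MvPolynomial (Fin d) ℝ := fun c =>
        ∑ i, MvPolynomial.C (c i) * MvPolynomial.X i
      have hlf : ∀ (c f : Fin d → ℝ), MvPolynomial.eval f (lf c) = ∑ i, c i * f i := by
        intro c f
        simp only [lf, map_sum, map_mul, MvPolynomial.eval_C, MvPolynomial.eval_X]
      have hlfd : ∀ c, (lf c).totalDegree ≤ 1 := by
        intro c
        refine (MvPolynomial.totalDegree_finsetSum _ _).trans ?_
        apply Finset.sup_le
        intro i _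
        refine (MvPolynomial.totalDegree_mul _ _).trans ?_
        rw [MvPolynomial.totalDegree_C, MvPolynomial.totalDegree_X]
      set p : MvPolynomial (Fin d) ℝ := lf (fun i => G (a i)) * lf b - lf (fun i => G (b i)) * lf a
        with hp
      have heval : ∀ c : Fin d → ℚ, MvPolynomial.eval (fun i => (c i : ℝ)) p =
          G (((∑ i, (c i : ℂ) * v i) / e).re) * (((∑ i, (c i : ℂ) * v i) / e).im / t) -
          G (((∑ i, (c i : ℂ) * v i) / e).im / t) * (((∑ i, (c i : ℂ) * v i) / e).re) := by
        intro c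
        have e1 : ((∑ i, (c i : ℂ) * v i) / e).re = ∑ i, (c i : ℝ) * a i := by
          rw [Finset.sum_div, re_sum]
          refine Finset.sum_congr rfl fun i _ => ?_
          rw [mul_div_assoc, ← ofReal_ratCast, re_ofReal_mul]
        have e2 : ((∑ i, (c i : ℂ) * v i) / e).im / t = ∑ i, (c i : ℝ) * b i := by
          rw [Finset.sum_div, im_sum, Finset.sum_div]
          refine Finset.sum_congr rfl fun i _ => ?_
          rw [mul_div_assoc, ← ofReal_ratCast, im_ofReal_mul, mul_div_assoc]
        rw [e1, e2, hp, map_sub, map_mul, map_mul, hlf, hlf, hlf, hlf, map_sum, map_sum]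
        have e3 : ∀ f : Fin d → ℝ, ∑ i, G ((c i : ℝ) * f i) = ∑ i, G (f i) * (c i : ℝ) := by
          intro f
          exact Finset.sum_congr rfl fun i _ => by rw [hGq, mul_comm]
        have e4 : ∀ f : Fin d → ℝ, ∑ i, (c i : ℝ) * f i = ∑ i, f i * (c i : ℝ) := by
          intro f
          exact Finset.sum_congr rfl fun i _ => mul_comm _ _
        rw [e3, e3, e4, e4]
      refine ⟨p, ?_, ?_, ?_⟩
      · -- not zero
        have hu0 : ((y1 : ℂ) + τ * y2) * e ∈ VQ v := by
          rw [add_mul, mul_assoc]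
          exact Submodule.add_mem _ hy1 (mem_KK.1 hj _ hy2)
        obtain ⟨c, hc⟩ := (Submodule.mem_span_range_iff_exists_fun ℚ).1 hu0
        have hc' : ∑ i, (c i : ℂ) * v i = ((y1 : ℂ) + τ * y2) * e := by
          rw [← hc]
          exact Finset.sum_congr rfl fun i _ => (Rat.smul_def _ _).symm
        intro hp0
        have h3 := heval c
        rw [hp0, map_zero, hc', mul_div_cancel_right₀ _ he] at h3
        have e1 : ((y1 : ℂ) + τ * y2).re = y1 := by
          rw [hτ]
          simp
        have e2 : ((y1 : ℂ) + τ * y2).im = t * y2 := by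
          rw [hτ]
          simp
        rw [e1, e2, mul_div_cancel_left₀ _ ht0, hG1, zero_mul, zero_sub, eq_comm, neg_eq_zero,
          mul_eq_zero] at h3
        rcases h3 with h3 | h3
        · exact hG2 h3
        · exact hy10 h3
      · refine (MvPolynomial.totalDegree_sub _ _).trans (max_le ?_ ?_)
        · exact (MvPolynomial.totalDegree_mul _ _).trans (add_le_add (hlfd _) (hlfd _))
        · exact (MvPolynomial.totalDegree_mul _ _).trans (add_le_add (hlfd _) (hlfd _))
      · intro x hx hRx
        have h3 := heval fun i => (x i : ℚ)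
        have e1 : ∑ i, (((x i : ℤ) : ℚ) : ℂ) * v i = pt v x := by
          unfold pt
          push_cast
          rfl
        have e2 : (fun i => (((x i : ℤ) : ℚ) : ℝ)) = fun i => (x i : ℝ) := by
          funext i
          push_cast
          rfl
        rw [e1, e2] at h3
        rw [h3]
        set w : ℂ := pt v x / e with hw
        have hw0 : w ≠ 0 := div_ne_zero (pt_ne_zero hv hx) he
        have hcw0 : conj w ≠ 0 := (map_ne_zero _).2 hw0
        have hce : conj e ≠ 0 := (map_ne_zero _).2 he
        have hpc : conj (pt v x) ≠ 0 := (map_ne_zero _).2 (pt_ne_zero hv hx)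
        -- the rotation
        have hrot : w / conj w ∈ KK v := by
          intro z hz
          have h4 := hRx _ (hR z hz)
          have h5 : pt v x / conj (pt v x) * conj (e / conj e * conj z) = w / conj w * z := by
            rw [hw, map_mul, map_div₀, map_div₀, conj_conj, conj_conj]
            field_simp
          rwa [h5] at h4
        by_cases hre : w.re = 0
        · rw [hre, map_zero, zero_mul, mul_zero, sub_zero]
        · have hre' : (w.re : ℂ) ≠ 0 := by exact_mod_cast hre
          have h4 : conj (2 * (1 + w / conj w)⁻¹) ∈ KK v :=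
            conj_KK he hR (mul_mem (ofNat_mem _ 2) (inv_mem (add_mem (one_mem _) hrot)))
          have h5 : conj (2 * (1 + w / conj w)⁻¹) = w / w.re := by
            have h6 : 1 + w / conj w = 2 * w.re / conj w := by
              rw [one_add_div hcw0]
              congr 1
              rw [add_comm, add_conj]
              push_cast
              ring
            rw [h6, inv_div, map_mul, map_div₀, map_mul, conj_conj, conj_ofReal, map_ofNat]
            field_simp
          rw [h5] at h4
          have h6 := im_FF he hR ht0 hτ hj h4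
          have h7 : (w / w.re).im / t = w.im / w.re / t := by
            rw [div_ofReal_im]
          rw [h7] at h6
          have h8 : w.im / t = (w.im / w.re / t) * w.re := by
            field_simp
          rw [h8, hGr _ h6]
          ring

end Pool.Agent.FCM
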