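import Mathlib

/-!
Few distances force complex multiplication: definitions and linear algebra.
-/

set_option autoImplicit false

namespace Pool.Agent.FCM

open Module Complex ComplexConjugate

variable {d : ℕ}

/-- the point with the integer coordinates `x` with respect to `v` -/
noncomputable def pt (v : Fin d → ℂ) (x : Fin d → ℤ) : ℂ := ∑ i, (x i : ℂ) * v i

/-- the rational span of `v` -/
noncomputable def VQ (v : Fin d → ℂ) : Submodule ℚ ℂ := Submodule.span ℚ (Set.range v)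

/-- the real line through `0` and `e`, as a rational vector space -/
noncomputable def ln (e : ℂ) : Submodule ℚ ℂ := (Submodule.span ℝ {e}).restrictScalars ℚ

/-- `V` is invariant under the reflection in the line `ℝ e` -/
def Ref (V : Submodule ℚ ℂ) (e : ℂ) : Prop := ∀ z ∈ V, e / conj e * conj z ∈ V

theorem mem_ln {e z : ℂ} : z ∈ ln e ↔ ∃ t : ℝ, (t : ℂ) * e = z := by
  unfold ln
  rw [Submodule.restrictScalars_mem, Submodule.mem_span_singleton]
  simp only [Complex.real_smul]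

theorem self_mem_ln (e : ℂ) : e ∈ ln e := mem_ln.2 ⟨1, by simp⟩

theorem ln_smul {e : ℂ} {t : ℝ} (ht : t ≠ 0) : ln ((t : ℂ) * e) = ln e := by
  have ht' : (t : ℂ) ≠ 0 := by exact_mod_cast ht
  ext z
  rw [mem_ln, mem_ln]
  constructor
  · rintro ⟨s, rfl⟩
    exact ⟨s * t, by push_cast; ring⟩
  · rintro ⟨s, rfl⟩
    refine ⟨s / t, ?_⟩
    push_cast
    field_simp

theorem ln_eq_of_mem {e z : ℂ} (hz : z ≠ 0) (h : z ∈ ln e) : ln z = ln e := by
  obtain ⟨t, rfl⟩ := mem_ln.1 h
  have ht : t ≠ 0 := by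
    rintro rfl
    simp at hz
  exact ln_smul ht

theorem ln_I_I (e : ℂ) : ln (I * (I * e)) = ln e := by
  have : I * (I * e) = ((-1 : ℝ) : ℂ) * e := by
    push_cast
    rw [← mul_assoc, I_mul_I]
  rw [this]
  exact ln_smul (by norm_num)

theorem mem_ln_I {e z : ℂ} (h : z ∈ ln e) : I * z ∈ ln (I * e) := by
  obtain ⟨t, rfl⟩ := mem_ln.1 h
  exact mem_ln.2 ⟨t, by ring⟩

/-- `z` is on the line through `e` iff `Im (z * conj e) = 0` -/
theorem mem_ln_iff_im {e z : ℂ} (he : e ≠ 0) : z ∈ ln e ↔ (z * conj e).im = 0 := by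
  rw [mem_ln]
  constructor
  · rintro ⟨t, rfl⟩
    rw [mul_assoc, mul_conj]
    simp
  · intro h
    refine ⟨(z * conj e).re / normSq e, ?_⟩
    have h1 : (((z * conj e).re : ℝ) : ℂ) = z * conj e := by
      apply Complex.ext
      · simp
      · rw [h]
        simp
    have h2 : (normSq e : ℂ) ≠ 0 := by
      exact_mod_cast (normSq_pos.2 he).ne'
    rw [ofReal_div, h1, div_mul_eq_mul_div, div_eq_iff h2, mul_assoc, ← mul_conj]
    ring

/-- perpendicular vectors -/
theorem mem_ln_I_iff_re {e z : ℂ} (he : e ≠ 0) : z ∈ ln (I * e) ↔ (z * conj e).re = 0 := by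
  rw [mem_ln_iff_im (mul_ne_zero I_ne_zero he)]
  have : z * conj (I * e) = -I * (z * conj e) := by
    rw [map_mul, conj_I]
    ring
  rw [this, neg_mul, neg_im, I_mul_im, neg_eq_zero]

theorem ln_inf_ln_I {e : ℂ} (he : e ≠ 0) : ln e ⊓ ln (I * e) = ⊥ := by
  rw [Submodule.eq_bot_iff]
  rintro z ⟨h1, h2⟩
  have h1' := (mem_ln_iff_im he).1 h1
  have h2' := (mem_ln_I_iff_re he).1 h2
  have h3 : z * conj e = 0 := Complex.ext (by simpa using h2') (by simpa using h1')
  rcases mul_eq_zero.1 h3 with h | h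
  · exact h
  · exact absurd ((map_eq_zero _).1 h) he

theorem refl_ln {e z : ℂ} (he : e ≠ 0) (h : z ∈ ln e) : e / conj e * conj z = z := by
  obtain ⟨t, rfl⟩ := mem_ln.1 h
  have : conj e ≠ 0 := (map_ne_zero _).2 he
  rw [map_mul, conj_ofReal]
  field_simp

theorem refl_ln_I {e z : ℂ} (he : e ≠ 0) (h : z ∈ ln (I * e)) : e / conj e * conj z = -z := by
  obtain ⟨t, rfl⟩ := mem_ln.1 h
  have : conj e ≠ 0 := (map_ne_zero _).2 he
  rw [map_mul, map_mul, conj_ofReal, conj_I]
  field_simp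

variable {v : Fin d → ℂ}

theorem pt_add (v : Fin d → ℂ) (x y : Fin d → ℤ) : pt v (x + y) = pt v x + pt v y := by
  unfold pt
  rw [← Finset.sum_add_distrib]
  exact Finset.sum_congr rfl fun i _ => by
    rw [Pi.add_apply]
    push_cast
    ring

theorem pt_sub (v : Fin d → ℂ) (x y : Fin d → ℤ) : pt v (x - y) = pt v x - pt v y := by
  unfold pt
  rw [← Finset.sum_sub_distrib]
  exact Finset.sum_congr rfl fun i _ => by
    rw [Pi.sub_apply]
    push_cast
    ring

theorem pt_zero (v : Fin d → ℂ) : pt v 0 = 0 := by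
  unfold pt
  simp

theorem pt_eq (v : Fin d → ℂ) (x : Fin d → ℤ) : pt v x = ∑ i, (x i : ℚ) • v i := by
  unfold pt
  refine Finset.sum_congr rfl fun i _ => ?_
  rw [Rat.smul_def]
  push_cast
  rfl

theorem pt_mem (v : Fin d → ℂ) (x : Fin d → ℤ) : pt v x ∈ VQ v := by
  rw [pt_eq]
  exact Submodule.sum_mem _ fun i _ =>
    Submodule.smul_mem _ _ (Submodule.subset_span (Set.mem_range_self i))

theorem pt_inj (hv : LinearIndependent ℚ v) : Function.Injective (pt v) := by
  intro x y h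
  have h1 : ∑ i, ((x i : ℚ) - (y i : ℚ)) • v i = 0 := by
    have h2 : pt v x - pt v y = 0 := sub_eq_zero.2 h
    rw [pt_eq, pt_eq, ← Finset.sum_sub_distrib] at h2
    rw [← h2]
    exact Finset.sum_congr rfl fun i _ => sub_smul _ _ _
  have h3 := Fintype.linearIndependent_iff.1 hv _ h1
  funext i
  have h4 := h3 i
  exact_mod_cast sub_eq_zero.1 h4

theorem pt_ne_zero (hv : LinearIndependent ℚ v) {x : Fin d → ℤ} (hx : x ≠ 0) : pt v x ≠ 0 := by
  intro h
  exact hx (pt_inj hv (h.trans (pt_zero v).symm))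

theorem finite_VQ (v : Fin d → ℂ) : FiniteDimensional ℚ (VQ v) :=
  FiniteDimensional.span_of_finite ℚ (Set.finite_range v)

theorem finrank_VQ (hv : LinearIndependent ℚ v) : finrank ℚ (VQ v) = d := by
  unfold VQ
  rw [finrank_span_eq_card hv, Fintype.card_fin]

/-- if the two perpendicular lines contain together `d` independent vectors, then `V` is invariant
under the reflection -/
theorem ref_of_le (hv : LinearIndependent ℚ v) {e : ℂ} (he : e ≠ 0)
    (h : d ≤ finrank ℚ (VQ v ⊓ ln e : Submodule ℚ ℂ) +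
      finrank ℚ (VQ v ⊓ ln (I * e) : Submodule ℚ ℂ)) : Ref (VQ v) e := by
  have := finite_VQ v
  have f1 : FiniteDimensional ℚ (VQ v ⊓ ln e : Submodule ℚ ℂ) :=
    Submodule.finiteDimensional_of_le inf_le_left
  have f2 : FiniteDimensional ℚ (VQ v ⊓ ln (I * e) : Submodule ℚ ℂ) :=
    Submodule.finiteDimensional_of_le inf_le_left
  have h1 := Submodule.finrank_sup_add_finrank_inf_eq (VQ v ⊓ ln e) (VQ v ⊓ ln (I * e))
  have h2 : (VQ v ⊓ ln e) ⊓ (VQ v ⊓ ln (I * e)) = ⊥ := by
    rw [eq_bot_iff, ← ln_inf_ln_I he]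
    exact inf_le_inf inf_le_right inf_le_right
  rw [h2, finrank_bot, add_zero] at h1
  have h3 : (VQ v ⊓ ln e) ⊔ (VQ v ⊓ ln (I * e)) = VQ v := by
    apply Submodule.eq_of_le_of_finrank_le (sup_le inf_le_left inf_le_left)
    rw [h1, finrank_VQ hv]
    exact h
  intro z hz
  rw [← h3] at hz
  obtain ⟨a, ha, b, hb, rfl⟩ := Submodule.mem_sup.1 hz
  rw [map_add, mul_add, refl_ln he ha.2, refl_ln_I he hb.2]
  exact Submodule.add_mem _ ha.1 (Submodule.neg_mem _ hb.1)

/-- and conversely -/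
theorem sum_of_ref (hv : LinearIndependent ℚ v) {e : ℂ} (he : e ≠ 0) (h : Ref (VQ v) e) :
    finrank ℚ (VQ v ⊓ ln e : Submodule ℚ ℂ) +
      finrank ℚ (VQ v ⊓ ln (I * e) : Submodule ℚ ℂ) = d := by
  have := finite_VQ v
  have f1 : FiniteDimensional ℚ (VQ v ⊓ ln e : Submodule ℚ ℂ) :=
    Submodule.finiteDimensional_of_le inf_le_left
  have f2 : FiniteDimensional ℚ (VQ v ⊓ ln (I * e) : Submodule ℚ ℂ) :=
    Submodule.finiteDimensional_of_le inf_le_left
  have h1 := Submodule.finrank_sup_add_finrank_inf_eq (VQ v ⊓ ln e) (VQ v ⊓ ln (I * e))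
  have h2 : (VQ v ⊓ ln e) ⊓ (VQ v ⊓ ln (I * e)) = ⊥ := by
    rw [eq_bot_iff, ← ln_inf_ln_I he]
    exact inf_le_inf inf_le_right inf_le_right
  rw [h2, finrank_bot, add_zero] at h1
  have h3 : (VQ v ⊓ ln e) ⊔ (VQ v ⊓ ln (I * e)) = VQ v := by
    apply le_antisymm (sup_le inf_le_left inf_le_left)
    intro z hz
    have hc : conj e ≠ 0 := (map_ne_zero _).2 he
    have hr := h z hz
    have hs : (1 / 2 : ℚ) • (z + e / conj e * conj z) + (1 / 2 : ℚ) • (z - e / conj e * conj z)
        = z := by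
      rw [← smul_add]
      rw [Rat.smul_def]
      push_cast
      ring
    have hcc : conj (e / conj e * conj z) = conj e / e * z := by
      rw [map_mul, map_div₀, conj_conj, conj_conj]
    rw [← hs]
    apply Submodule.add_mem_sup
    · refine ⟨Submodule.smul_mem _ _ (Submodule.add_mem _ hz hr), Submodule.smul_mem _ _ ?_⟩
      rw [mem_ln_iff_im he, ← conj_eq_iff_im, map_mul, map_add, conj_conj, hcc]
      field_simp
      ring
    · refine ⟨Submodule.smul_mem _ _ (Submodule.sub_mem _ hz hr), Submodule.smul_mem _ _ ?_⟩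
      rw [mem_ln_I_iff_re he]
      have : conj ((z - e / conj e * conj z) * conj e) = -((z - e / conj e * conj z) * conj e) := by
        rw [map_mul, map_sub, conj_conj, hcc]
        field_simp
        ring
      have h5 := congrArg Complex.re this
      rw [conj_re, neg_re] at h5
      linarith
  rw [← h1, h3, finrank_VQ hv]

/-- two different reflections give a rotation -/
theorem rot_of_ref {V : Submodule ℚ ℂ} {e e' : ℂ} (he : e ≠ 0) (he' : e' ≠ 0) (h : Ref V e)
    (h' : Ref V e') (h1 : e' ∉ ln e) (h2 : e' ∉ ln (I * e)) :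
    ∃ ζ : ℂ, ‖ζ‖ = 1 ∧ ζ ≠ 1 ∧ ζ ≠ -1 ∧ ∀ z ∈ V, ζ * z ∈ V := by
  have hc : conj e ≠ 0 := (map_ne_zero _).2 he
  have hc' : conj e' ≠ 0 := (map_ne_zero _).2 he'
  refine ⟨e' * conj e / (conj e' * e), ?_, ?_, ?_, ?_⟩
  · rw [norm_div, norm_mul, norm_mul, RCLike.norm_conj, RCLike.norm_conj]
    have : ‖e'‖ * ‖e‖ ≠ 0 := mul_ne_zero (norm_ne_zero_iff.2 he') (norm_ne_zero_iff.2 he)
    exact div_self this
  · intro h3
    apply h1
    rw [mem_ln_iff_im he, ← conj_eq_iff_im, map_mul, conj_conj]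
    rw [div_eq_one_iff_eq (mul_ne_zero hc' he)] at h3
    exact h3.symm
  · intro h3
    apply h2
    rw [mem_ln_I_iff_re he]
    rw [div_eq_iff (mul_ne_zero hc' he)] at h3
    have h4 : e' * conj e = -conj (e' * conj e) := by
      rw [map_mul, conj_conj, h3]
      ring
    have h5 := congrArg Complex.re h4
    rw [neg_re, conj_re] at h5
    linarith
  · intro z hz
    have h3 := h' _ (h z hz)
    have h4 : e' / conj e' * conj (e / conj e * conj z) = e' * conj e / (conj e' * e) * z := by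
      rw [map_mul, map_div₀, conj_conj, conj_conj]
      field_simp
    rwa [h4] at h3

/-- with a rotation both lines contain the same number of independent vectors -/
theorem half_of_rot (hv : LinearIndependent ℚ v) {e ζ : ℂ} (he : e ≠ 0) (h : Ref (VQ v) e)
    (hn : ‖ζ‖ = 1) (h1 : ζ ≠ 1) (h2 : ζ ≠ -1) (hζ : ∀ z ∈ VQ v, ζ * z ∈ VQ v) :
    2 * finrank ℚ (VQ v ⊓ ln e : Submodule ℚ ℂ) = d := by
  have := finite_VQ v
  have f1 : FiniteDimensional ℚ (VQ v ⊓ ln e : Submodule ℚ ℂ) :=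
    Submodule.finiteDimensional_of_le inf_le_left
  have f2 : FiniteDimensional ℚ (VQ v ⊓ ln (I * e) : Submodule ℚ ℂ) :=
    Submodule.finiteDimensional_of_le inf_le_left
  have hζ0 : ζ ≠ 0 := by
    intro h0
    rw [h0, norm_zero] at hn
    exact zero_ne_one hn
  -- the inverse of the rotation
  let m : VQ v →ₗ[ℚ] VQ v :=
    { toFun := fun z => ⟨ζ * z, hζ z z.2⟩
      map_add' := fun a b => by
        apply Subtype.ext
        show ζ * ((a : ℂ) + b) = ζ * a + ζ * b
        ring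
      map_smul' := fun q a => by
        apply Subtype.ext
        show ζ * (q • (a : ℂ)) = q • (ζ * (a : ℂ))
        rw [Rat.smul_def, Rat.smul_def]
        ring }
  have hm : Function.Injective m := by
    intro a b hab
    have h3 : ζ * (a : ℂ) = ζ * (b : ℂ) := congrArg Subtype.val hab
    exact Subtype.ext (mul_left_cancel₀ hζ0 h3)
  have hm' : Function.Surjective m := LinearMap.injective_iff_surjective.1 hm
  have hinv : ∀ z ∈ VQ v, ζ⁻¹ * z ∈ VQ v := by
    intro z hz
    obtain ⟨a, ha⟩ := hm' ⟨z, hz⟩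
    have h3 : ζ * (a : ℂ) = z := congrArg Subtype.val ha
    rw [← h3, inv_mul_cancel_left₀ hζ0]
    exact a.2
  have hconj : ζ⁻¹ = conj ζ := by
    rw [inv_def, normSq_eq_norm_sq, hn]
    simp
  have him : ζ.im ≠ 0 := by
    intro h3
    have h4 : ζ = (ζ.re : ℂ) := Complex.ext (by simp) (by rw [h3]; simp)
    rw [h4, norm_real, Real.norm_eq_abs] at hn
    rcases (abs_eq (by norm_num : (0 : ℝ) ≤ 1)).1 hn with h5 | h5
    · apply h1
      rw [h4, h5]
      simp
    · apply h2
      rw [h4, h5]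
      simp
  have hd : ζ - ζ⁻¹ = ((2 * ζ.im : ℝ) : ℂ) * I := by
    rw [hconj, sub_conj]
  have hV : ∀ z ∈ VQ v, ((2 * ζ.im : ℝ) : ℂ) * I * z ∈ VQ v := by
    intro z hz
    rw [← hd, sub_mul]
    exact Submodule.sub_mem _ (hζ z hz) (hinv z hz)
  have hs : (2 * ζ.im : ℝ) ≠ 0 := mul_ne_zero two_ne_zero him
  -- multiplication by `i` times a real number exchanges the two lines
  have hle : ∀ a b : ℂ, (∀ z ∈ ln a, I * z ∈ ln b) →
      FiniteDimensional ℚ (VQ v ⊓ ln b : Submodule ℚ ℂ) →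
      finrank ℚ (VQ v ⊓ ln a : Submodule ℚ ℂ) ≤ finrank ℚ (VQ v ⊓ ln b : Submodule ℚ ℂ) := by
    intro a b hab hfin
    let g : (VQ v ⊓ ln a : Submodule ℚ ℂ) →ₗ[ℚ] (VQ v ⊓ ln b : Submodule ℚ ℂ) :=
      { toFun := fun z => ⟨((2 * ζ.im : ℝ) : ℂ) * I * z, hV z z.2.1, by
          have h3 := hab z z.2.2
          obtain ⟨t, ht⟩ := mem_ln.1 h3
          rw [mul_assoc, ← ht]
          exact mem_ln.2 ⟨2 * ζ.im * t, by push_cast; ring⟩⟩
        map_add' := fun x y => by
          apply Subtype.ext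
          show ((2 * ζ.im : ℝ) : ℂ) * I * ((x : ℂ) + y) = _ * I * x + _ * I * y
          ring
        map_smul' := fun q x => by
          apply Subtype.ext
          show ((2 * ζ.im : ℝ) : ℂ) * I * (q • (x : ℂ)) = q • (_ * I * (x : ℂ))
          rw [Rat.smul_def, Rat.smul_def]
          ring }
    apply LinearMap.finrank_le_finrank_of_injective (f := g)
    intro x y hxy
    have h3 : ((2 * ζ.im : ℝ) : ℂ) * I * (x : ℂ) = ((2 * ζ.im : ℝ) : ℂ) * I * (y : ℂ) :=
      congrArg Subtype.val hxy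
    have h4 : ((2 * ζ.im : ℝ) : ℂ) * I ≠ 0 := mul_ne_zero (by exact_mod_cast hs) I_ne_zero
    exact Subtype.ext (mul_left_cancel₀ h4 h3)
  have h3 := hle e (I * e) (fun z hz => mem_ln_I hz) f2
  have h4 := hle (I * e) e (fun z hz => by
    rw [← ln_I_I e]
    exact mem_ln_I hz) f1
  have h5 := sum_of_ref hv he h
  omega

end Pool.Agent.FCM
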