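import Pool.Agent.Helper53_FCM.Energy

/-!
Few distances force complex multiplication: from perpendicular pairs to distances.
-/

set_option autoImplicit false

namespace Pool.Agent.FCM

open Module Complex ComplexConjugate Finset

variable {d : ℕ} {v : Fin d → ℂ}

/-- number of distinct distances between different points of `A` -/
noncomputable def nd (A : Finset ℂ) : ℕ := {r : ℝ | ∃ p ∈ A, ∃ q ∈ A, p ≠ q ∧ r = dist p q}.ncard

open Classical in
theorem card_sq_le {α β : Type*} (s : Finset α) (f : α → β) :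
    s.card ^ 2 ≤ (s.image f).card * ((s ×ˢ s).filter (fun p => f p.1 = f p.2)).card := by
  have h1 : s.card = ∑ b ∈ s.image f, (s.filter fun a => f a = b).card :=
    Finset.card_eq_sum_card_image f s
  have h2 : ((s ×ˢ s).filter (fun p => f p.1 = f p.2)).card =
      ∑ b ∈ s.image f, (s.filter fun a => f a = b).card ^ 2 := by
    rw [Finset.card_eq_sum_card_fiberwise (f := fun p : α × α => f p.1) (t := s.image f)]
    · refine Finset.sum_congr rfl fun b _ => ?_
      rw [sq, ← Finset.card_product]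
      congr 1
      ext p
      simp only [Finset.mem_filter, Finset.mem_product]
      constructor
      · rintro ⟨⟨⟨h3, h4⟩, h5⟩, h6⟩
        exact ⟨⟨h3, h6⟩, h4, by rw [← h5, h6]⟩
      · rintro ⟨⟨h3, h4⟩, h5, h6⟩
        exact ⟨⟨⟨h3, h5⟩, by rw [h4, h6]⟩, h4⟩
    · intro p hp
      have h3 := (Finset.mem_filter.1 hp).1
      exact Finset.mem_image_of_mem f (Finset.mem_product.1 h3).1
  rw [h2]
  calc s.card ^ 2 = (∑ b ∈ s.image f, (s.filter fun a => f a = b).card) ^ 2 := by rw [← h1]
    _ ≤ _ := sq_sum_le_card_mul_sum_sq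

/-- lower bound for the number of distances -/
theorem dist_bound (hv : LinearIndependent ℚ v) (N : ℕ)
    (A : Finset ℂ) (hA : ∀ z ∈ A, ∃ x : Fin d → ℤ, (∀ i, |x i| ≤ N) ∧ pt v x = z) :
    (A.card : ℝ) ^ 2 ≤ (nd A + 1) * (PP v (4 * N)).card := by
  classical
  set X := (bx d N).filter fun x => pt v x ∈ A with hX
  have hXA : X.image (pt v) = A := by
    ext z
    rw [Finset.mem_image]
    constructor
    · rintro ⟨x, hx, rfl⟩
      exact (Finset.mem_filter.1 hx).2
    · intro hz
      obtain ⟨x, hx, rfl⟩ := hA z hz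
      exact ⟨x, Finset.mem_filter.2 ⟨mem_bx.2 hx, hz⟩, rfl⟩
  have hcX : X.card = A.card := by
    rw [← hXA, Finset.card_image_of_injective _ (pt_inj hv)]
  rcases Nat.eq_zero_or_pos X.card with h0 | h0
  · rw [← hcX, h0]
    simp only [Nat.cast_zero, ne_eq, OfNat.ofNat_ne_zero, not_false_eq_true, zero_pow]
    positivity
  set f : (Fin d → ℤ) × (Fin d → ℤ) → ℝ := fun p => dist (pt v p.1) (pt v p.2) with hf
  set Q := ((X ×ˢ X) ×ˢ (X ×ˢ X)).filter (fun p => f p.1 = f p.2) with hQ
  -- the number of values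
  have hval : ((X ×ˢ X).image f).card ≤ nd A + 1 := by
    have hsub : (((X ×ˢ X).image f : Finset ℝ) : Set ℝ) ⊆
        insert 0 {r : ℝ | ∃ p ∈ A, ∃ q ∈ A, p ≠ q ∧ r = dist p q} := by
      intro r hr
      obtain ⟨p, hp, rfl⟩ := Finset.mem_image.1 hr
      obtain ⟨h1, h2⟩ := Finset.mem_product.1 hp
      by_cases h3 : pt v p.1 = pt v p.2
      · left
        rw [hf]
        show dist (pt v p.1) (pt v p.2) = 0
        rw [h3, dist_self]
      · right
        exact ⟨_, (Finset.mem_filter.1 h1).2, _, (Finset.mem_filter.1 h2).2, h3, rfl⟩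
    have hfin : {r : ℝ | ∃ p ∈ A, ∃ q ∈ A, p ≠ q ∧ r = dist p q}.Finite := by
      apply ((A ×ˢ A).image fun p : ℂ × ℂ => dist p.1 p.2).finite_toSet.subset
      rintro r ⟨p, hp, q, hq, -, rfl⟩
      exact Finset.mem_image.2 ⟨(p, q), Finset.mem_product.2 ⟨hp, hq⟩, rfl⟩
    calc ((X ×ˢ X).image f).card = (((X ×ˢ X).image f : Finset ℝ) : Set ℝ).ncard :=
          (Set.ncard_coe_finset _).symm
      _ ≤ (insert 0 {r : ℝ | ∃ p ∈ A, ∃ q ∈ A, p ≠ q ∧ r = dist p q}).ncard :=
          Set.ncard_le_ncard hsub (hfin.insert 0)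
      _ ≤ nd A + 1 := Set.ncard_insert_le _ _
  -- the number of quadruples
  have hquad : Q.card ≤ (X.card * X.card) * (PP v (4 * N)).card := by
    apply Finset.card_le_mul_card_image_of_maps_to
      (f := fun p : ((Fin d → ℤ) × (Fin d → ℤ)) × ((Fin d → ℤ) × (Fin d → ℤ)) =>
        ((p.1.1 - p.1.2) - (p.2.1 - p.2.2), (p.1.1 - p.1.2) + (p.2.1 - p.2.2)))
    · intro p hp
      obtain ⟨h1, h2⟩ := Finset.mem_filter.1 hp
      rw [Finset.mem_product, Finset.mem_product, Finset.mem_product] at h1
      obtain ⟨⟨h3, h4⟩, h5, h6⟩ := h1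
      unfold PP
      rw [Finset.mem_filter, Finset.mem_product, mem_bx, mem_bx]
      have hb : ∀ x ∈ X, ∀ i, |x i| ≤ (N : ℤ) := fun x hx =>
        mem_bx.1 (Finset.mem_filter.1 hx).1
      refine ⟨⟨?_, ?_⟩, ?_⟩
      · intro i
        have g1 := abs_le.1 (hb _ h3 i)
        have g2 := abs_le.1 (hb _ h4 i)
        have g3 := abs_le.1 (hb _ h5 i)
        have g4 := abs_le.1 (hb _ h6 i)
        show |(p.1.1 i - p.1.2 i) - (p.2.1 i - p.2.2 i)| ≤ ((4 * N : ℕ) : ℤ)
        push_cast
        rw [abs_le]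
        constructor <;> linarith [g1.1, g1.2, g2.1, g2.2, g3.1, g3.2, g4.1, g4.2]
      · intro i
        have g1 := abs_le.1 (hb _ h3 i)
        have g2 := abs_le.1 (hb _ h4 i)
        have g3 := abs_le.1 (hb _ h5 i)
        have g4 := abs_le.1 (hb _ h6 i)
        show |(p.1.1 i - p.1.2 i) + (p.2.1 i - p.2.2 i)| ≤ ((4 * N : ℕ) : ℤ)
        push_cast
        rw [abs_le]
        constructor <;> linarith [g1.1, g1.2, g2.1, g2.2, g3.1, g3.2, g4.1, g4.2]
      · show (pt v ((p.1.1 - p.1.2) - (p.2.1 - p.2.2)) *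
          conj (pt v ((p.1.1 - p.1.2) + (p.2.1 - p.2.2)))).re = 0
        rw [pt_add, pt_sub v (p.1.1 - p.1.2), pt_sub, pt_sub]
        have h7 : dist (pt v p.1.1) (pt v p.1.2) = dist (pt v p.2.1) (pt v p.2.2) := h2
        rw [dist_eq_norm, dist_eq_norm] at h7
        set w := pt v p.1.1 - pt v p.1.2 with hw
        set w' := pt v p.2.1 - pt v p.2.2 with hw'
        have h8 : normSq w = normSq w' := by
          rw [normSq_eq_norm_sq, normSq_eq_norm_sq, h7]
        rw [normSq_apply, normSq_apply] at h8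
        simp only [map_add, mul_re, sub_re, add_re, sub_im, conj_re, conj_im, add_im]
        linear_combination h8
    · rintro ⟨a, b⟩ -
      have hinj : ((Q.filter fun p => ((p.1.1 - p.1.2) - (p.2.1 - p.2.2),
          (p.1.1 - p.1.2) + (p.2.1 - p.2.2)) = (a, b)).card) ≤ (X ×ˢ X).card := by
        apply Finset.card_le_card_of_injOn (fun p => (p.1.1, p.2.1))
        · intro p hp
          have h1 := (Finset.mem_filter.1 (Finset.mem_filter.1 hp).1).1
          rw [Finset.mem_product, Finset.mem_product, Finset.mem_product] at h1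
          exact Finset.mem_product.2 ⟨h1.1.1, h1.2.1⟩
        · intro p hp q hq hpq
          obtain ⟨hp1, hp2⟩ := Prod.ext_iff.1 (Finset.mem_filter.1 hp).2
          obtain ⟨hq1, hq2⟩ := Prod.ext_iff.1 (Finset.mem_filter.1 hq).2
          obtain ⟨e1, e2⟩ := Prod.ext_iff.1 hpq
          have k1 : p.1.1 = q.1.1 := e1
          have k2 : p.2.1 = q.2.1 := e2
          have k3 : p.1.1 - p.1.2 - (p.2.1 - p.2.2) = q.1.1 - q.1.2 - (q.2.1 - q.2.2) :=
            hp1.trans hq1.symm
          have k4 : p.1.1 - p.1.2 + (p.2.1 - p.2.2) = q.1.1 - q.1.2 + (q.2.1 - q.2.2) :=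
            hp2.trans hq2.symm
          have k5 : p.1.2 = q.1.2 := by
            funext i
            have m1 := congrFun k1 i
            have m2 := congrFun k2 i
            have m3 := congrFun k3 i
            have m4 := congrFun k4 i
            simp only [Pi.sub_apply, Pi.add_apply] at m3 m4
            omega
          have k6 : p.2.2 = q.2.2 := by
            funext i
            have m1 := congrFun k1 i
            have m2 := congrFun k2 i
            have m3 := congrFun k3 i
            have m4 := congrFun k4 i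
            simp only [Pi.sub_apply, Pi.add_apply] at m3 m4
            omega
          exact Prod.ext (Prod.ext k1 k5) (Prod.ext k2 k6)
      rw [Finset.card_product] at hinj
      exact hinj
  have hcs := card_sq_le (X ×ˢ X) f
  rw [Finset.card_product] at hcs
  have h4 : (X.card * X.card) ^ 2 ≤ (nd A + 1) * ((X.card * X.card) * (PP v (4 * N)).card) :=
    hcs.trans (Nat.mul_le_mul hval hquad)
  have h5 : X.card * X.card ≤ (nd A + 1) * (PP v (4 * N)).card := by
    have h6 : 0 < X.card * X.card := Nat.mul_pos h0 h0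
    have h7 : (X.card * X.card) * (X.card * X.card) ≤
        (X.card * X.card) * ((nd A + 1) * (PP v (4 * N)).card) := by
      calc (X.card * X.card) * (X.card * X.card) = (X.card * X.card) ^ 2 := (sq _).symm
        _ ≤ _ := h4
        _ = _ := by ring
    exact Nat.le_of_mul_le_mul_left h7 h6
  have h7 : ((X.card * X.card : ℕ) : ℝ) ≤ (((nd A + 1) * (PP v (4 * N)).card : ℕ) : ℝ) := by
    exact_mod_cast h5
  rw [hcX] at h7
  push_cast at h7
  calc (A.card : ℝ) ^ 2 = A.card * A.card := sq _
    _ ≤ (nd A + 1) * (PP v (4 * N)).card := h7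

end Pool.Agent.FCM
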