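import Pool.Agent.Helper53_FCM.Pack

/-!
Few distances force complex multiplication: the number of pairs of perpendicular vectors.
-/

set_option autoImplicit false

namespace Pool.Agent.FCM

open Module Complex ComplexConjugate Finset

variable {d : ℕ} {v : Fin d → ℂ}

/-- the box of integer vectors -/
noncomputable def bx (d M : ℕ) : Finset (Fin d → ℤ) := Fintype.piFinset fun _ => Finset.Icc (-(M : ℤ)) M

theorem mem_bx {M : ℕ} {x : Fin d → ℤ} : x ∈ bx d M ↔ ∀ i, |x i| ≤ M := by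
  simp [bx, Fintype.mem_piFinset, abs_le]

theorem mem_bx_iff_rv {M : ℕ} {x : Fin d → ℤ} : x ∈ bx d M ↔ ‖rv x‖ ≤ M := by
  rw [mem_bx, rv_le (Nat.cast_nonneg M)]
  refine forall_congr' fun i => ?_
  rw [← Int.cast_abs]
  exact_mod_cast Iff.rfl

theorem card_bx (d M : ℕ) : (bx d M).card = (2 * M + 1) ^ d := by
  unfold bx
  rw [Fintype.card_piFinset_const, Int.card_Icc]
  congr 1
  omega

theorem ln_I_congr {e z : ℂ} (h : ln z = ln e) : ln (I * z) = ln (I * e) := by
  have key : ∀ a b : ℂ, ln a = ln b → ln (I * a) ≤ ln (I * b) := by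
    intro a b hab w hw
    obtain ⟨s, rfl⟩ := mem_ln.1 hw
    have h1 : a ∈ ln b := by
      rw [← hab]
      exact self_mem_ln a
    obtain ⟨t, ht⟩ := mem_ln.1 h1
    exact mem_ln.2 ⟨s * t, by rw [← ht]; push_cast; ring⟩
  exact le_antisymm (key z e h) (key e z h.symm)

open Classical in
/-- the pairs of perpendicular vectors -/
noncomputable def PP (v : Fin d → ℂ) (M : ℕ) : Finset ((Fin d → ℤ) × (Fin d → ℤ)) :=
  (bx d M ×ˢ bx d M).filter fun p => (pt v p.1 * conj (pt v p.2)).re = 0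

/-- pairs on two fixed perpendicular lines -/
theorem card_pair_le (hv : LinearIndependent ℚ v) {e : ℂ} (he : e ≠ 0) (M : ℕ)
    (F : Finset ((Fin d → ℤ) × (Fin d → ℤ)))
    (hF : ∀ p ∈ F, (p.1 ∈ bx d M ∧ p.2 ∈ bx d M) ∧ pt v p.1 ∈ ln e ∧ pt v p.2 ∈ ln (I * e)) :
    F.card ≤ (4 * M + 1) ^ d := by
  have h1 : (4 * M + 1) ^ d = (bx d (2 * M)).card := by
    rw [card_bx]
    congr 1
    omega
  rw [h1]
  apply Finset.card_le_card_of_injOn (fun p => p.1 + p.2)
  · intro p hp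
    obtain ⟨⟨h2, h3⟩, -⟩ := hF p hp
    rw [Finset.mem_coe, mem_bx]
    intro i
    have h4 := mem_bx.1 h2 i
    have h5 := mem_bx.1 h3 i
    have h6 := abs_add_le (p.1 i) (p.2 i)
    show |p.1 i + p.2 i| ≤ ((2 * M : ℕ) : ℤ)
    push_cast
    linarith
  · intro p hp q hq hpq
    obtain ⟨-, h2, h3⟩ := hF p hp
    obtain ⟨-, h4, h5⟩ := hF q hq
    have h6 : pt v p.1 - pt v q.1 = pt v q.2 - pt v p.2 := by
      have h7 := congrArg (pt v) hpq
      simp only [pt_add] at h7
      linear_combination h7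
    have h7 : pt v p.1 - pt v q.1 ∈ ln e ⊓ ln (I * e) :=
      ⟨Submodule.sub_mem _ h2 h4, by rw [h6]; exact Submodule.sub_mem _ h5 h3⟩
    rw [ln_inf_ln_I he, Submodule.mem_bot] at h7
    have h8 : p.1 = q.1 := pt_inj hv (sub_eq_zero.1 h7)
    rw [h7] at h6
    have h9 : p.2 = q.2 := pt_inj hv (sub_eq_zero.1 h6.symm).symm
    exact Prod.ext h8 h9

/-- the sum over the nonzero vectors of the box -/
theorem sum_inv (k M : ℕ) :
    ∑ u ∈ (bx (k + 1) M).filter (fun u => u ≠ 0), (1 / ‖rv u‖) ^ k ≤ 2 * (k + 1) * 3 ^ k * M := by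
  classical
  have hmax : ∀ u : Fin (k + 1) → ℤ, ∃ i, ∀ j, |u j| ≤ |u i| := by
    intro u
    obtain ⟨i, -, hi⟩ := Finset.exists_max_image Finset.univ (fun i => |u i|)
      Finset.univ_nonempty
    exact ⟨i, fun j => hi j (Finset.mem_univ j)⟩
  choose im him using hmax
  have hnorm : ∀ u : Fin (k + 1) → ℤ, ‖rv u‖ = |(u (im u) : ℝ)| := by
    intro u
    apply le_antisymm
    · rw [rv_le (abs_nonneg _)]
      intro j
      exact_mod_cast him u j
    · exact norm_le_pi_norm (rv u) (im u)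
  set T : Finset (Fin (k + 1) × ℤ) := Finset.univ ×ˢ ((Finset.Icc (-(M : ℤ)) M).erase 0) with hT
  have hmap : ∀ u ∈ (bx (k + 1) M).filter (fun u => u ≠ 0), (im u, u (im u)) ∈ T := by
    intro u hu
    obtain ⟨h1, h2⟩ := Finset.mem_filter.1 hu
    rw [hT, Finset.mem_product, Finset.mem_erase, Finset.mem_Icc]
    refine ⟨Finset.mem_univ _, ?_, abs_le.1 (mem_bx.1 h1 _)⟩
    intro h3
    have h3' : u (im u) = 0 := h3
    have h4 := one_le_rv h2
    rw [hnorm, h3'] at h4
    norm_num at h4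
  rw [← Finset.sum_fiberwise_of_maps_to hmap]
  have hbound : ∀ c ∈ T, ∑ u ∈ ((bx (k + 1) M).filter (fun u => u ≠ 0)).filter
      (fun u => (im u, u (im u)) = c), (1 / ‖rv u‖) ^ k ≤ 3 ^ k := by
    rintro ⟨i, s⟩ hc
    rw [hT, Finset.mem_product, Finset.mem_erase] at hc
    have hs : s ≠ 0 := hc.2.1
    have hs1 : (1 : ℝ) ≤ |(s : ℝ)| := by exact_mod_cast Int.one_le_abs hs
    have h1 : ∀ u ∈ ((bx (k + 1) M).filter (fun u => u ≠ 0)).filter
        (fun u => (im u, u (im u)) = (i, s)), (1 / ‖rv u‖) ^ k = (1 / |(s : ℝ)|) ^ k := by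
      intro u hu
      have h2 := (Finset.mem_filter.1 hu).2
      have h2' : u (im u) = s := (Prod.ext_iff.1 h2).2
      rw [hnorm, h2']
    rw [Finset.sum_congr rfl h1, Finset.sum_const, nsmul_eq_mul]
    have h2 : ((bx (k + 1) M).filter (fun u => u ≠ 0)).filter
        (fun u => (im u, u (im u)) = (i, s)) ⊆ Fintype.piFinset
          (fun j => if j = i then ({s} : Finset ℤ) else Finset.Icc (-|s|) |s|) := by
      intro u hu
      obtain ⟨-, h3⟩ := Finset.mem_filter.1 hu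
      have h4 : im u = i := (Prod.ext_iff.1 h3).1
      have h5 : u (im u) = s := (Prod.ext_iff.1 h3).2
      rw [Fintype.mem_piFinset]
      intro j
      by_cases hj : j = i
      · rw [if_pos hj, Finset.mem_singleton, hj, ← h4, h5]
      · rw [if_neg hj, Finset.mem_Icc]
        have h6 := him u j
        rw [h5] at h6
        exact abs_le.1 h6
    have h3 : (Fintype.piFinset
        (fun j => if j = i then ({s} : Finset ℤ) else Finset.Icc (-|s|) |s|)).card
        = (2 * s.natAbs + 1) ^ k := by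
      rw [Fintype.card_piFinset]
      have h4 : ∀ j : Fin (k + 1), (if j = i then ({s} : Finset ℤ) else Finset.Icc (-|s|) |s|).card
          = if j = i then 1 else 2 * s.natAbs + 1 := by
        intro j
        by_cases hj : j = i
        · rw [if_pos hj, if_pos hj, Finset.card_singleton]
        · rw [if_neg hj, if_neg hj, Int.card_Icc, Int.abs_eq_natAbs]
          omega
      rw [Finset.prod_congr rfl fun j _ => h4 j]
      rw [Finset.prod_ite]
      rw [Finset.prod_const_one, one_mul, Finset.prod_const]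
      congr 1
      rw [Finset.filter_ne', Finset.card_erase_of_mem (Finset.mem_univ _), Finset.card_univ,
        Fintype.card_fin]
      omega
    have h4 : ((((bx (k + 1) M).filter (fun u => u ≠ 0)).filter
        (fun u => (im u, u (im u)) = (i, s))).card : ℝ) ≤ (2 * |(s : ℝ)| + 1) ^ k := by
      have h5 := Finset.card_le_card h2
      rw [h3] at h5
      have h6 : ((2 * s.natAbs + 1 : ℕ) : ℝ) = 2 * |(s : ℝ)| + 1 := by
        push_cast
        rw [Nat.cast_natAbs]
        push_cast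
        rfl
      calc _ ≤ (((2 * s.natAbs + 1) ^ k : ℕ) : ℝ) := by exact_mod_cast h5
        _ = _ := by rw [Nat.cast_pow, h6]
    calc _ ≤ (2 * |(s : ℝ)| + 1) ^ k * (1 / |(s : ℝ)|) ^ k := by
          exact mul_le_mul_of_nonneg_right h4 (by positivity)
      _ = ((2 * |(s : ℝ)| + 1) * (1 / |(s : ℝ)|)) ^ k := (mul_pow _ _ _).symm
      _ ≤ 3 ^ k := by
          apply pow_le_pow_left₀ (by positivity)
          rw [mul_one_div, div_le_iff₀ (by linarith)]
          linarith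
  calc _ ≤ ∑ _c ∈ T, (3 : ℝ) ^ k := Finset.sum_le_sum hbound
    _ = T.card * 3 ^ k := by rw [Finset.sum_const, nsmul_eq_mul]
    _ = 2 * (k + 1) * 3 ^ k * M := by
        have h1 : T.card = (k + 1) * (2 * M) := by
          rw [hT, Finset.card_product, Finset.card_univ, Fintype.card_fin, Finset.card_erase_of_mem
            (by rw [Finset.mem_Icc]; omega), Int.card_Icc]
          congr 1
          omega
        rw [h1]
        push_cast
        ring

/-- `u` is a shortest nonzero vector on its line and on the perpendicular line -/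
def mn (v : Fin d → ℂ) (u : Fin d → ℤ) : Prop := ∀ w : Fin d → ℤ, w ≠ 0 →
  (pt v w ∈ ln (pt v u) ∨ pt v w ∈ ln (I * pt v u)) → ‖rv u‖ ≤ ‖rv w‖

open Classical in
/-- pairs on the two lines of `u` -/
noncomputable def AB (v : Fin d → ℂ) (M : ℕ) (u : Fin d → ℤ) :
    Finset ((Fin d → ℤ) × (Fin d → ℤ)) :=
  (((bx d M).filter fun x => pt v x ∈ ln (pt v u)) ×ˢ
    ((bx d M).filter fun x => pt v x ∈ ln (I * pt v u))) ∪
  (((bx d M).filter fun x => pt v x ∈ ln (I * pt v u)) ×ˢ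
    ((bx d M).filter fun x => pt v x ∈ ln (pt v u)))

theorem mem_PP {M : ℕ} (p : (Fin d → ℤ) × (Fin d → ℤ)) : p ∈ PP v M ↔
    (p.1 ∈ bx d M ∧ p.2 ∈ bx d M) ∧ (pt v p.1 * conj (pt v p.2)).re = 0 := by
  unfold PP
  rw [Finset.mem_filter, Finset.mem_product]

theorem perp_PP (hv : LinearIndependent ℚ v) {M : ℕ} {p : (Fin d → ℤ) × (Fin d → ℤ)}
    (hp : p ∈ PP v M) (h1 : p.1 ≠ 0) : pt v p.2 ∈ ln (I * pt v p.1) := by
  rw [mem_ln_I_iff_re (pt_ne_zero hv h1)]
  have h2 := ((mem_PP p).1 hp).2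
  have h3 : pt v p.2 * conj (pt v p.1) = conj (pt v p.1 * conj (pt v p.2)) := by
    rw [map_mul, conj_conj, mul_comm]
  rw [h3, conj_re, h2]

/-- the reflection only depends on the pair of perpendicular lines -/
theorem ref_congr {V : Submodule ℚ ℂ} {e z : ℂ} (he : e ≠ 0) (hz : z ≠ 0)
    (h : z ∈ ln e ∨ z ∈ ln (I * e)) (hr : Ref V z) : Ref V e := by
  have hc : conj e ≠ 0 := (map_ne_zero _).2 he
  rcases h with h | h
  · obtain ⟨t, ht⟩ := mem_ln.1 h
    have ht0 : (t : ℂ) ≠ 0 := by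
      intro h0
      rw [h0, zero_mul] at ht
      exact hz ht.symm
    intro w hw
    have h7 := hr w hw
    rw [← ht, map_mul, conj_ofReal, mul_div_mul_left _ _ ht0] at h7
    exact h7
  · obtain ⟨t, ht⟩ := mem_ln.1 h
    have ht0 : (t : ℂ) ≠ 0 := by
      intro h0
      rw [h0, zero_mul] at ht
      exact hz ht.symm
    intro w hw
    have h7 := hr w hw
    have h8 : z / conj z = -(e / conj e) := by
      rw [← ht, map_mul, conj_ofReal, mul_div_mul_left _ _ ht0, map_mul, conj_I]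
      field_simp
    rw [h8, neg_mul] at h7
    exact neg_mem_iff.1 h7

/-- every pair of perpendicular vectors belongs to a shortest vector -/
theorem cover (hv : LinearIndependent ℚ v) {M : ℕ} {p : (Fin d → ℤ) × (Fin d → ℤ)}
    (hp : p ∈ PP v M) (h2 : p.1 ≠ 0) :
    ∃ u ∈ bx d M, u ≠ 0 ∧ mn v u ∧ (Ref (VQ v) (pt v u) ↔ Ref (VQ v) (pt v p.1)) ∧
      p ∈ AB v M u := by
  classical
  have h5 := ((mem_PP p).1 hp).1
  have h6 := perp_PP hv hp h2
  have h20 := pt_ne_zero hv h2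
  set W := (bx d M).filter fun w => w ≠ 0 ∧ (pt v w ∈ ln (pt v p.1) ∨
    pt v w ∈ ln (I * pt v p.1)) with hW
  have hWn : W.Nonempty := ⟨p.1, Finset.mem_filter.2 ⟨h5.1, h2, Or.inl (self_mem_ln _)⟩⟩
  obtain ⟨u, hu, hmin⟩ := Finset.exists_min_image W (fun w => ‖rv w‖) hWn
  obtain ⟨hu1, hu2, hu3⟩ := Finset.mem_filter.1 hu
  have hu0 := pt_ne_zero hv hu2
  have hmin' : ∀ w : Fin d → ℤ, w ≠ 0 → (pt v w ∈ ln (pt v p.1) ∨
      pt v w ∈ ln (I * pt v p.1)) → ‖rv u‖ ≤ ‖rv w‖ := by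
    intro w hw hw'
    by_cases hwM : w ∈ bx d M
    · exact hmin w (Finset.mem_filter.2 ⟨hwM, hw, hw'⟩)
    · rw [mem_bx_iff_rv, not_le] at hwM
      exact ((mem_bx_iff_rv.1 hu1).trans_lt hwM).le
  have hback : pt v p.1 ∈ ln (pt v u) ∨ pt v p.1 ∈ ln (I * pt v u) := by
    rcases hu3 with hu3 | hu3
    · left
      rw [ln_eq_of_mem hu0 hu3]
      exact self_mem_ln _
    · right
      rw [ln_I_congr (ln_eq_of_mem hu0 hu3), ln_I_I]
      exact self_mem_ln _
  refine ⟨u, hu1, hu2, ?_, ⟨fun h => ref_congr h20 hu0 hu3 h, fun h => ref_congr hu0 h20 hback h⟩,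
    ?_⟩
  · rcases hu3 with hu3 | hu3
    · have e1 : ln (pt v u) = ln (pt v p.1) := ln_eq_of_mem hu0 hu3
      have e2 : ln (I * pt v u) = ln (I * pt v p.1) := ln_I_congr e1
      intro w hw hw'
      rw [e1, e2] at hw'
      exact hmin' w hw hw'
    · have e1 : ln (pt v u) = ln (I * pt v p.1) := ln_eq_of_mem hu0 hu3
      have e2 : ln (I * pt v u) = ln (pt v p.1) := by
        rw [ln_I_congr e1, ln_I_I]
      intro w hw hw'
      rw [e1, e2] at hw'
      exact hmin' w hw hw'.symm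
  · unfold AB
    rw [Finset.mem_union, Finset.mem_product, Finset.mem_product]
    rcases hu3 with hu3 | hu3
    · have e1 : ln (pt v u) = ln (pt v p.1) := ln_eq_of_mem hu0 hu3
      have e2 : ln (I * pt v u) = ln (I * pt v p.1) := ln_I_congr e1
      left
      refine ⟨Finset.mem_filter.2 ⟨h5.1, ?_⟩, Finset.mem_filter.2 ⟨h5.2, ?_⟩⟩
      · rw [e1]
        exact self_mem_ln _
      · rw [e2]
        exact h6
    · have e1 : ln (pt v u) = ln (I * pt v p.1) := ln_eq_of_mem hu0 hu3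
      have e2 : ln (I * pt v u) = ln (pt v p.1) := by
        rw [ln_I_congr e1, ln_I_I]
      right
      refine ⟨Finset.mem_filter.2 ⟨h5.1, ?_⟩, Finset.mem_filter.2 ⟨h5.2, ?_⟩⟩
      · rw [e2]
        exact self_mem_ln _
      · rw [e1]
        exact h6

/-- the number of pairs which belong to one shortest vector -/
theorem card_AB (hv : LinearIndependent ℚ v) {M k : ℕ} {u : Fin d → ℤ} (h1 : u ∈ bx d M)
    (h2 : u ≠ 0) (h3 : mn v u) (hr : finrank ℚ (VQ v ⊓ ln (pt v u) : Submodule ℚ ℂ) +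
      finrank ℚ (VQ v ⊓ ln (I * pt v u) : Submodule ℚ ℂ) ≤ k) :
    ((AB v M u).card : ℝ) ≤ 2 * (3 * M) ^ k * (1 / ‖rv u‖) ^ k := by
  classical
  have ht1 := one_le_rv h2
  have ht2 := mem_bx_iff_rv.1 h1
  have hM' : (1 : ℝ) ≤ M := ht1.trans ht2
  set A := (bx d M).filter fun x => pt v x ∈ ln (pt v u) with hA
  set B := (bx d M).filter fun x => pt v x ∈ ln (I * pt v u) with hB
  have ha : (A.card : ℝ) ≤ (2 * M / ‖rv u‖ + 1) ^
      finrank ℚ (VQ v ⊓ ln (pt v u) : Submodule ℚ ℂ) := by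
    apply pack hv _ inf_le_left A ‖rv u‖ M (by linarith) (by linarith)
    · intro x hx
      obtain ⟨h5, h6⟩ := Finset.mem_filter.1 hx
      exact ⟨⟨pt_mem v x, h6⟩, mem_bx_iff_rv.1 h5⟩
    · intro x hx hx'
      exact h3 x hx (Or.inl hx'.2)
  have hb : (B.card : ℝ) ≤ (2 * M / ‖rv u‖ + 1) ^
      finrank ℚ (VQ v ⊓ ln (I * pt v u) : Submodule ℚ ℂ) := by
    apply pack hv _ inf_le_left B ‖rv u‖ M (by linarith) (by linarith)
    · intro x hx
      obtain ⟨h5, h6⟩ := Finset.mem_filter.1 hx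
      exact ⟨⟨pt_mem v x, h6⟩, mem_bx_iff_rv.1 h5⟩
    · intro x hx hx'
      exact h3 x hx (Or.inr hx'.2)
  have hbase : 2 * M / ‖rv u‖ + 1 ≤ 3 * M * (1 / ‖rv u‖) := by
    rw [mul_one_div, div_add_one (by linarith)]
    apply div_le_div_of_nonneg_right _ (by linarith)
    linarith
  have hbase1 : 1 ≤ 2 * M / ‖rv u‖ + 1 := by
    have : 0 ≤ 2 * M / ‖rv u‖ := by positivity
    linarith
  have hab : (A.card : ℝ) * B.card ≤ (3 * M) ^ k * (1 / ‖rv u‖) ^ k := by
    calc (A.card : ℝ) * B.card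
        ≤ (2 * M / ‖rv u‖ + 1) ^ finrank ℚ (VQ v ⊓ ln (pt v u) : Submodule ℚ ℂ) *
          (2 * M / ‖rv u‖ + 1) ^ finrank ℚ (VQ v ⊓ ln (I * pt v u) : Submodule ℚ ℂ) :=
          mul_le_mul ha hb (Nat.cast_nonneg _) (by positivity)
      _ = (2 * M / ‖rv u‖ + 1) ^ (finrank ℚ (VQ v ⊓ ln (pt v u) : Submodule ℚ ℂ) +
          finrank ℚ (VQ v ⊓ ln (I * pt v u) : Submodule ℚ ℂ)) := (pow_add _ _ _).symm
      _ ≤ (2 * M / ‖rv u‖ + 1) ^ k := pow_le_pow_right₀ hbase1 hr
      _ ≤ (3 * M * (1 / ‖rv u‖)) ^ k := pow_le_pow_left₀ (by linarith) hbase _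
      _ = _ := mul_pow _ _ _
  have hcard : ((AB v M u).card : ℝ) ≤ (A.card : ℝ) * B.card + (B.card : ℝ) * A.card := by
    have h5 := Finset.card_union_le (A ×ˢ B) (B ×ˢ A)
    rw [Finset.card_product, Finset.card_product] at h5
    have h6 : (AB v M u).card ≤ A.card * B.card + B.card * A.card := h5
    exact_mod_cast h6
  nlinarith [hcard, hab]

open Classical in
/-- pairs of nonzero vectors on lines with a reflection -/
noncomputable def RR (v : Fin d → ℂ) (M : ℕ) : Finset ((Fin d → ℤ) × (Fin d → ℤ)) :=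
  (PP v M).filter fun p => p.1 ≠ 0 ∧ p.2 ≠ 0 ∧ Ref (VQ v) (pt v p.1)

/-- the number of pairs of perpendicular vectors, up to the lines with a reflection -/
theorem energy_gen (hv : LinearIndependent ℚ v) (M : ℕ) (hM : 1 ≤ M) :
    ((PP v M).card : ℝ) ≤ (2 * 3 ^ d + 4 * d * 9 ^ d) * M ^ d + (RR v M).card := by
  classical
  have hM' : (1 : ℝ) ≤ M := by exact_mod_cast hM
  set Z1 := (PP v M).filter fun p => p.1 = 0 with hZ1
  set Z2 := (PP v M).filter fun p => p.2 = 0 with hZ2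
  set N := (PP v M).filter fun p => p.1 ≠ 0 ∧ p.2 ≠ 0 ∧ ¬ Ref (VQ v) (pt v p.1) with hN
  have hcov : PP v M ⊆ Z1 ∪ Z2 ∪ RR v M ∪ N := by
    intro p hp
    by_cases h1 : p.1 = 0
    · exact Finset.mem_union_left _ (Finset.mem_union_left _ (Finset.mem_union_left _
        (Finset.mem_filter.2 ⟨hp, h1⟩)))
    by_cases h2 : p.2 = 0
    · exact Finset.mem_union_left _ (Finset.mem_union_left _ (Finset.mem_union_right _
        (Finset.mem_filter.2 ⟨hp, h2⟩)))
    by_cases h3 : Ref (VQ v) (pt v p.1)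
    · exact Finset.mem_union_left _ (Finset.mem_union_right _
        (Finset.mem_filter.2 ⟨hp, h1, h2, h3⟩))
    · exact Finset.mem_union_right _ (Finset.mem_filter.2 ⟨hp, h1, h2, h3⟩)
  have hc1 : Z1.card ≤ (2 * M + 1) ^ d := by
    rw [← card_bx]
    apply Finset.card_le_card_of_injOn (fun p => p.2)
    · intro p hp
      exact ((mem_PP p).1 (Finset.mem_filter.1 hp).1).1.2
    · intro p hp q hq h
      exact Prod.ext ((Finset.mem_filter.1 hp).2.trans (Finset.mem_filter.1 hq).2.symm) h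
  have hc2 : Z2.card ≤ (2 * M + 1) ^ d := by
    rw [← card_bx]
    apply Finset.card_le_card_of_injOn (fun p => p.1)
    · intro p hp
      exact ((mem_PP p).1 (Finset.mem_filter.1 hp).1).1.1
    · intro p hp q hq h
      exact Prod.ext h ((Finset.mem_filter.1 hp).2.trans (Finset.mem_filter.1 hq).2.symm)
  have hc4 : (N.card : ℝ) ≤ 4 * d * 9 ^ d * M ^ d := by
    set G := (bx d M).filter fun u => u ≠ 0 ∧ mn v u ∧ ¬ Ref (VQ v) (pt v u) with hG
    have hcov4 : N ⊆ G.biUnion fun u => AB v M u := by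
      intro p hp
      obtain ⟨h1, h2, h3, h4⟩ := Finset.mem_filter.1 hp
      obtain ⟨u, hu1, hu2, hu3, hu4, hu5⟩ := cover hv h1 h2
      rw [Finset.mem_biUnion]
      exact ⟨u, Finset.mem_filter.2 ⟨hu1, hu2, hu3, fun h => h4 (hu4.1 h)⟩, hu5⟩
    have hone : ∀ u ∈ G, ((AB v M u).card : ℝ) ≤
        2 * (3 * M) ^ (d - 1) * (1 / ‖rv u‖) ^ (d - 1) := by
      intro u hu
      obtain ⟨h1, h2, h3, h4⟩ := Finset.mem_filter.1 hu
      apply card_AB hv h1 h2 h3
      by_contra hcon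
      apply h4
      apply ref_of_le hv (pt_ne_zero hv h2)
      omega
    have hsum : (N.card : ℝ) ≤ ∑ u ∈ G, 2 * (3 * (M : ℝ)) ^ (d - 1) * (1 / ‖rv u‖) ^ (d - 1) := by
      have h1 : N.card ≤ ∑ u ∈ G, (AB v M u).card :=
        (Finset.card_le_card hcov4).trans Finset.card_biUnion_le
      calc (N.card : ℝ) ≤ ((∑ u ∈ G, (AB v M u).card : ℕ) : ℝ) := by
            exact_mod_cast h1
        _ = ∑ u ∈ G, ((AB v M u).card : ℝ) := by push_cast; rfl
        _ ≤ _ := Finset.sum_le_sum hone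
    have hsub : G ⊆ (bx d M).filter (fun u => u ≠ 0) := by
      intro u hu
      obtain ⟨h1, h2, -⟩ := Finset.mem_filter.1 hu
      exact Finset.mem_filter.2 ⟨h1, h2⟩
    rcases Nat.eq_zero_or_pos d with hd | hd
    · subst hd
      have h1 : G = ∅ := by
        rw [Finset.eq_empty_iff_forall_notMem]
        intro u hu
        exact (Finset.mem_filter.1 hu).2.1 (Subsingleton.elim _ _)
      rw [h1, Finset.sum_empty] at hsum
      calc (N.card : ℝ) ≤ 0 := hsum
        _ ≤ _ := by positivity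
    · obtain ⟨k, rfl⟩ : ∃ k, d = k + 1 := ⟨d - 1, by omega⟩
      rw [Nat.add_sub_cancel] at hsum
      have h1 : ∑ u ∈ G, 2 * (3 * (M : ℝ)) ^ k * (1 / ‖rv u‖) ^ k ≤
          2 * (3 * (M : ℝ)) ^ k * (2 * (k + 1) * 3 ^ k * M) := by
        rw [← Finset.mul_sum]
        apply mul_le_mul_of_nonneg_left _ (by positivity)
        exact (Finset.sum_le_sum_of_subset_of_nonneg hsub fun _ _ _ => by positivity).trans
          (sum_inv k M)
      calc (N.card : ℝ) ≤ 2 * (3 * (M : ℝ)) ^ k * (2 * (k + 1) * 3 ^ k * M) := hsum.trans h1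
        _ = 4 * (k + 1) * 9 ^ k * M ^ (k + 1) := by
            rw [mul_pow, show (9 : ℝ) = 3 * 3 by norm_num, mul_pow]
            ring
        _ ≤ 4 * ((k + 1 : ℕ) : ℝ) * 9 ^ (k + 1) * M ^ (k + 1) := by
            push_cast
            apply mul_le_mul_of_nonneg_right _ (by positivity)
            apply mul_le_mul_of_nonneg_left _ (by positivity)
            exact pow_le_pow_right₀ (by norm_num) (Nat.le_succ k)
  have htot : (PP v M).card ≤ Z1.card + Z2.card + (RR v M).card + N.card := by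
    have h1 := Finset.card_le_card hcov
    have h2 := Finset.card_union_le (Z1 ∪ Z2 ∪ RR v M) N
    have h3 := Finset.card_union_le (Z1 ∪ Z2) (RR v M)
    have h4 := Finset.card_union_le Z1 Z2
    omega
  have h3 : (((2 * M + 1) ^ d : ℕ) : ℝ) ≤ 3 ^ d * M ^ d := by
    rw [← mul_pow]
    push_cast
    apply pow_le_pow_left₀ (by positivity)
    linarith
  have h6 : (Z1.card : ℝ) ≤ (((2 * M + 1) ^ d : ℕ) : ℝ) := by exact_mod_cast hc1
  have h7 : (Z2.card : ℝ) ≤ (((2 * M + 1) ^ d : ℕ) : ℝ) := by exact_mod_cast hc2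
  have h9 : ((PP v M).card : ℝ) ≤ Z1.card + Z2.card + (RR v M).card + N.card := by
    exact_mod_cast htot
  calc ((PP v M).card : ℝ) ≤ 3 ^ d * M ^ d + 3 ^ d * M ^ d + (RR v M).card +
        4 * d * 9 ^ d * M ^ d := by linarith
    _ = _ := by ring

/-- at most one pair of lines with a reflection -/
theorem card_RR_one (hv : LinearIndependent ℚ v) (M : ℕ) (hM : 1 ≤ M)
    (hno : ∀ e e' : ℂ, e ≠ 0 → e' ≠ 0 → Ref (VQ v) e → Ref (VQ v) e' →
      e' ∈ ln e ∨ e' ∈ ln (I * e)) :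
    ((RR v M).card : ℝ) ≤ 2 * 5 ^ d * M ^ d := by
  classical
  have hM' : (1 : ℝ) ≤ M := by exact_mod_cast hM
  have hc3 : (RR v M).card ≤ 2 * (4 * M + 1) ^ d := by
    rcases (RR v M).eq_empty_or_nonempty with h | ⟨p0, hp0⟩
    · rw [h, Finset.card_empty]
      exact Nat.zero_le _
    · obtain ⟨hp1, hp2, -, hp3⟩ := Finset.mem_filter.1 hp0
      set e := pt v p0.1 with he
      have he0 : e ≠ 0 := pt_ne_zero hv hp2
      have hIe0 : I * e ≠ 0 := mul_ne_zero I_ne_zero he0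
      set F1 := (RR v M).filter fun p => pt v p.1 ∈ ln e with hF1
      set F2 := (RR v M).filter fun p => pt v p.1 ∈ ln (I * e) with hF2
      have hcov2 : RR v M ⊆ F1 ∪ F2 := by
        intro p hp
        obtain ⟨h1, h2, -, h3⟩ := Finset.mem_filter.1 hp
        rcases hno e (pt v p.1) he0 (pt_ne_zero hv h2) hp3 h3 with h4 | h4
        · exact Finset.mem_union.2 (Or.inl (Finset.mem_filter.2 ⟨hp, h4⟩))
        · exact Finset.mem_union.2 (Or.inr (Finset.mem_filter.2 ⟨hp, h4⟩))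
      have hf1 : F1.card ≤ (4 * M + 1) ^ d := by
        apply card_pair_le hv he0 M
        intro p hp
        obtain ⟨h1, h2⟩ := Finset.mem_filter.1 hp
        obtain ⟨h3, h4, -⟩ := Finset.mem_filter.1 h1
        refine ⟨((mem_PP p).1 h3).1, h2, ?_⟩
        rw [← ln_I_congr (ln_eq_of_mem (pt_ne_zero hv h4) h2)]
        exact perp_PP hv h3 h4
      have hf2 : F2.card ≤ (4 * M + 1) ^ d := by
        apply card_pair_le hv hIe0 M
        intro p hp
        obtain ⟨h1, h2⟩ := Finset.mem_filter.1 hp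
        obtain ⟨h3, h4, -⟩ := Finset.mem_filter.1 h1
        refine ⟨((mem_PP p).1 h3).1, h2, ?_⟩
        rw [← ln_I_congr (ln_eq_of_mem (pt_ne_zero hv h4) h2)]
        exact perp_PP hv h3 h4
      have h1 := Finset.card_le_card hcov2
      have h2 := Finset.card_union_le F1 F2
      omega
  have h5 : (((4 * M + 1) ^ d : ℕ) : ℝ) ≤ 5 ^ d * M ^ d := by
    rw [← mul_pow]
    push_cast
    apply pow_le_pow_left₀ (by positivity)
    linarith
  have h8 : ((RR v M).card : ℝ) ≤ 2 * (((4 * M + 1) ^ d : ℕ) : ℝ) := by exact_mod_cast hc3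
  linarith

/-- the number of pairs of perpendicular vectors -/
theorem energy (hv : LinearIndependent ℚ v) (M : ℕ) (hM : 1 ≤ M)
    (hno : ∀ e e' : ℂ, e ≠ 0 → e' ≠ 0 → Ref (VQ v) e → Ref (VQ v) e' →
      e' ∈ ln e ∨ e' ∈ ln (I * e)) :
    ((PP v M).card : ℝ) ≤ (2 * 3 ^ d + 2 * 5 ^ d + 4 * d * 9 ^ d) * M ^ d := by
  have h1 := energy_gen hv M hM
  have h2 := card_RR_one hv M hM hno
  calc ((PP v M).card : ℝ) ≤ (2 * 3 ^ d + 4 * d * 9 ^ d) * M ^ d + 2 * 5 ^ d * M ^ d := by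
        linarith
    _ = _ := by ring

end Pool.Agent.FCM
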