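import Pool.Agent.Helper53_FCM.Zeros
import Pool.Agent.Helper53_FCM.Dist
import Pool.Agent.Helper53_FCM.Alg
import Pool.Agent.Helper59_FCM.Lin

/-!
Few distances force complex multiplication: the dichotomy.
-/

set_option autoImplicit false

namespace Pool.Agent.FCM

open Module Complex ComplexConjugate

variable {d : ℕ} {v : Fin d → ℂ}

/-- the constant -/
noncomputable def Cd (d : ℕ) : ℝ :=
  ((2 * 3 ^ d + 4 * d * 9 ^ d) + 2 * 5 ^ d + 8 * 15 ^ d) * 4 ^ d

theorem Cd_pos (d : ℕ) : 0 < Cd d := by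
  unfold Cd
  positivity

/-- from a bound for the lines with a reflection to distances -/
theorem dist_of_RR (hv : LinearIndependent ℚ v) (N : ℕ) (hN : 1 ≤ N)
    (hR : ((RR v (4 * N)).card : ℝ) ≤ (2 * 5 ^ d + 8 * 15 ^ d) * ((4 * N : ℕ) : ℝ) ^ d)
    (A : Finset ℂ) (hA : ∀ z ∈ A, ∃ x : Fin d → ℤ, (∀ i, |x i| ≤ N) ∧ pt v x = z) :
    (A.card : ℝ) ^ 2 ≤ Cd d * ((nd A + 1) * N ^ d) := by
  have h1 := dist_bound hv N A hA
  have h2 := energy_gen hv (4 * N) (by omega)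
  have h3 : ((PP v (4 * N)).card : ℝ) ≤ Cd d * N ^ d := by
    calc ((PP v (4 * N)).card : ℝ) ≤ (2 * 3 ^ d + 4 * d * 9 ^ d) * ((4 * N : ℕ) : ℝ) ^ d +
          (RR v (4 * N)).card := h2
      _ ≤ (2 * 3 ^ d + 4 * d * 9 ^ d) * ((4 * N : ℕ) : ℝ) ^ d +
          (2 * 5 ^ d + 8 * 15 ^ d) * ((4 * N : ℕ) : ℝ) ^ d := by linarith
      _ = Cd d * N ^ d := by
          unfold Cd
          push_cast
          rw [mul_pow]
          ring
  calc (A.card : ℝ) ^ 2 ≤ (nd A + 1) * (PP v (4 * N)).card := h1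
    _ ≤ (nd A + 1) * (Cd d * N ^ d) := mul_le_mul_of_nonneg_left h3 (by positivity)
    _ = _ := by ring

/-- a line with many points -/
theorem line_of_half (hv : LinearIndependent ℚ v) {e : ℂ} (he : e ≠ 0)
    (h : 2 * finrank ℚ (VQ v ⊓ ln e : Submodule ℚ ℂ) = d) :
    ∃ c : ℝ, 0 < c ∧ ∀ (N : ℕ) (A : Finset ℂ), 1 ≤ N →
      (∀ z ∈ A, ∃ x : Fin d → ℤ, (∀ i, |x i| ≤ N) ∧ pt v x = z) →
      ∃ L : AffineSubspace ℝ ℂ, finrank ℝ L.direction = 1 ∧
        c * A.card ≤ (N : ℝ) ^ (d / 2) * (((A : Set ℂ) ∩ (L : Set ℂ)).ncard : ℝ) := by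
  classical
  obtain ⟨c, hc, hlin⟩ := H59.lin hv he
  refine ⟨c, hc, fun N A hN hA => ?_⟩
  obtain ⟨z0, hz0⟩ := hlin N A hN hA
  refine ⟨AffineSubspace.mk' z0 (Submodule.span ℝ {e}), ?_, ?_⟩
  · rw [AffineSubspace.direction_mk']
    exact finrank_span_singleton he
  · have h1 : (A : Set ℂ) ∩ (AffineSubspace.mk' z0 (Submodule.span ℝ {e}) : Set ℂ) =
        ((A.filter fun z => z - z0 ∈ ln e : Finset ℂ) : Set ℂ) := by
      ext z
      rw [Finset.coe_filter, Set.mem_inter_iff]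
      rfl
    rw [h1, Set.ncard_coe_finset]
    have h2 : d - finrank ℚ (VQ v ⊓ ln e : Submodule ℚ ℂ) = d / 2 := by omega
    rw [h2] at hz0
    exact hz0

/-- the dichotomy -/
theorem dichotomy (hv : LinearIndependent ℚ v) :
    (∀ (N : ℕ) (A : Finset ℂ), 1 ≤ N →
      (∀ z ∈ A, ∃ x : Fin d → ℤ, (∀ i, |x i| ≤ N) ∧ pt v x = z) →
      (A.card : ℝ) ^ 2 ≤ Cd d * ((nd A + 1) * N ^ d)) ∨
    (∃ (K : Subfield ℂ) (z : ℂ), z ≠ 0 ∧ finrank ℚ K = d ∧ (∀ w : ℂ, z * w ∈ VQ v ↔ w ∈ K) ∧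
      (∀ w ∈ K, conj w ∈ K) ∧ (∃ w ∈ K, w.im ≠ 0) ∧
      ∃ c : ℝ, 0 < c ∧ ∀ (N : ℕ) (A : Finset ℂ), 1 ≤ N →
        (∀ z ∈ A, ∃ x : Fin d → ℤ, (∀ i, |x i| ≤ N) ∧ pt v x = z) →
        ∃ L : AffineSubspace ℝ ℂ, finrank ℝ L.direction = 1 ∧
          c * A.card ≤ (N : ℝ) ^ (d / 2) * (((A : Set ℂ) ∩ (L : Set ℂ)).ncard : ℝ)) := by
  by_cases hno : ∀ e e' : ℂ, e ≠ 0 → e' ≠ 0 → Ref (VQ v) e → Ref (VQ v) e' →
      e' ∈ ln e ∨ e' ∈ ln (I * e)
  · left
    intro N A hN hA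
    apply dist_of_RR hv N hN _ A hA
    have h1 := card_RR_one hv (4 * N) (by omega) hno
    have h2 : (0 : ℝ) ≤ 8 * 15 ^ d * ((4 * N : ℕ) : ℝ) ^ d := by positivity
    linarith
  · push Not at hno
    obtain ⟨e, e', he, he', hR, hR', h1, h2⟩ := hno
    obtain ⟨ζ, hn, hz1, hz2, hζ⟩ := rot_of_ref he he' hR hR' h1 h2
    rcases alg hv he hR hn hz1 hz2 hζ with ⟨z, hz, hze, hK⟩ | ⟨p, hp, hpd, hpz⟩
    · right
      have hζim : ζ.im ≠ 0 := by
        intro h3
        have h4 : ζ = (ζ.re : ℂ) := Complex.ext (by simp) (by rw [h3]; simp)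
        rw [h4, norm_real, Real.norm_eq_abs] at hn
        rcases (abs_eq (by norm_num : (0 : ℝ) ≤ 1)).1 hn with h5 | h5
        · apply hz1
          rw [h4, h5]
          simp
        · apply hz2
          rw [h4, h5]
          simp
      refine ⟨KK v, z, hz, ?_, hK, fun w hw => conj_KK he hR hw, ⟨ζ, hζ, hζim⟩,
        line_of_half hv he (half_of_rot hv he hR hn hz1 hz2 hζ)⟩
      -- the degree
      let f : KK v →ₗ[ℚ] VQ v :=
        { toFun := fun w => ⟨z * w, (hK w).2 w.2⟩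
          map_add' := fun a b => by
            apply Subtype.ext
            show z * ((a : ℂ) + b) = z * a + z * b
            ring
          map_smul' := fun q a => by
            apply Subtype.ext
            show z * ((q • a : KK v) : ℂ) = q • (z * (a : ℂ))
            have h3 : ((q • a : KK v) : ℂ) = (q : ℂ) * a := by
              rw [Rat.smul_def]
              push_cast
              rfl
            rw [h3, Rat.smul_def]
            ring }
      have hf : Function.Bijective f := by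
        constructor
        · intro a b hab
          have h3 : z * (a : ℂ) = z * (b : ℂ) := congrArg Subtype.val hab
          exact Subtype.ext (mul_left_cancel₀ hz h3)
        · rintro ⟨u, hu⟩
          have h3 : z * (z⁻¹ * u) = u := mul_inv_cancel_left₀ hz u
          refine ⟨⟨z⁻¹ * u, (hK _).1 (by rw [h3]; exact hu)⟩, ?_⟩
          apply Subtype.ext
          exact h3
      rw [(LinearEquiv.ofBijective f hf).finrank_eq, finrank_VQ hv]
    · left
      intro N A hN hA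
      apply dist_of_RR hv N hN _ A hA
      have h3 := card_RR_two hv (4 * N) p hp hpd hpz
      have h4 : (0 : ℝ) ≤ 2 * 5 ^ d * ((4 * N : ℕ) : ℝ) ^ d := by positivity
      linarith

end Pool.Agent.FCM
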