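import Pool.Agent.Helper53_FCM.Pac
import Pool.Agent.Helper53_FCM.Defs

/-!
Few distances force complex multiplication: integer vectors on a line.
-/

set_option autoImplicit false

namespace Pool.Agent.FCM

open Module Complex ComplexConjugate

variable {d : ℕ} {v : Fin d → ℂ}

/-- an integer vector as a real vector -/
def rv (x : Fin d → ℤ) : Fin d → ℝ := fun i => (x i : ℝ)

theorem rv_sub (x y : Fin d → ℤ) : rv (x - y) = rv x - rv y := by
  funext i
  simp [rv]

theorem rv_le {x : Fin d → ℤ} {M : ℝ} (hM : 0 ≤ M) : ‖rv x‖ ≤ M ↔ ∀ i, |(x i : ℝ)| ≤ M := by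
  rw [pi_norm_le_iff_of_nonneg hM]
  rfl

theorem one_le_rv {x : Fin d → ℤ} (hx : x ≠ 0) : 1 ≤ ‖rv x‖ := by
  obtain ⟨i, hi⟩ := Function.ne_iff.1 hx
  have h1 : |(x i : ℝ)| ≤ ‖rv x‖ := norm_le_pi_norm (rv x) i
  have h2 : (1 : ℝ) ≤ |(x i : ℝ)| := by
    exact_mod_cast Int.one_le_abs hi
  linarith

/-- the real span of the integer vectors with `pt v x ∈ U` -/
noncomputable def rs (v : Fin d → ℂ) (U : Submodule ℚ ℂ) : Submodule ℝ (Fin d → ℝ) :=
  Submodule.span ℝ (rv '' {x | pt v x ∈ U})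

theorem finrank_rs (hv : LinearIndependent ℚ v) (U : Submodule ℚ ℂ) (hU : U ≤ VQ v) :
    finrank ℝ (rs v U) ≤ finrank ℚ U := by
  have := finite_VQ v
  have fU : FiniteDimensional ℚ U := Submodule.finiteDimensional_of_le hU
  let b := finBasis ℚ U
  have hb : ∀ j, ∃ c : Fin d → ℚ, ∑ i, c i • v i = (b j : ℂ) := fun j =>
    (Submodule.mem_span_range_iff_exists_fun ℚ).1 (hU (b j).2)
  choose c hc using hb
  have h : rs v U ≤ Submodule.span ℝ (Set.range fun j => fun i => (c j i : ℝ)) := by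
    unfold rs
    rw [Submodule.span_le]
    rintro _ ⟨x, hx, rfl⟩
    set q := b.repr ⟨pt v x, hx⟩ with hq
    have h1 : ∑ j, q j • (b j : ℂ) = pt v x := by
      have h2 := congrArg (fun u : U => (u : ℂ)) (b.sum_repr ⟨pt v x, hx⟩)
      simpa only [Submodule.coe_sum, Submodule.coe_smul] using h2
    have h2 : ∑ i, ((∑ j, q j * c j i) - (x i : ℚ)) • v i = 0 := by
      simp only [sub_smul, Finset.sum_sub_distrib]
      rw [← pt_eq, ← h1, sub_eq_zero]
      simp only [Finset.sum_smul]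
      rw [Finset.sum_comm]
      refine Finset.sum_congr rfl fun j _ => ?_
      rw [← hc j, Finset.smul_sum]
      exact Finset.sum_congr rfl fun i _ => mul_smul _ _ _
    have h3 := Fintype.linearIndependent_iff.1 hv _ h2
    have h4 : rv x = ∑ j, (q j : ℝ) • (fun i => (c j i : ℝ)) := by
      funext i
      have h5 := sub_eq_zero.1 (h3 i)
      have h6 : ((∑ j, q j * c j i : ℚ) : ℝ) = ((x i : ℚ) : ℝ) := by rw [h5]
      simp only [rv, Finset.sum_apply, Pi.smul_apply, smul_eq_mul]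
      push_cast at h6
      exact h6.symm
    rw [h4]
    exact Submodule.sum_mem _ fun j _ =>
      Submodule.smul_mem _ _ (Submodule.subset_span ⟨j, rfl⟩)
  calc finrank ℝ (rs v U) ≤ finrank ℝ (Submodule.span ℝ (Set.range fun j => fun i => (c j i : ℝ))) :=
        Submodule.finrank_mono h
    _ ≤ Fintype.card (Fin (finrank ℚ U)) := finrank_range_le_card _
    _ = finrank ℚ U := Fintype.card_fin _

/-- packing of integer vectors -/
theorem pack (hv : LinearIndependent ℚ v) (U : Submodule ℚ ℂ) (hU : U ≤ VQ v)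
    (S : Finset (Fin d → ℤ)) (t M : ℝ) (ht : 0 < t) (hM : 0 ≤ M)
    (hS : ∀ x ∈ S, pt v x ∈ U ∧ ‖rv x‖ ≤ M)
    (hmin : ∀ x : Fin d → ℤ, x ≠ 0 → pt v x ∈ U → t ≤ ‖rv x‖) :
    (S.card : ℝ) ≤ (2 * M / t + 1) ^ finrank ℚ U := by
  classical
  let f : {x // x ∈ S} → rs v U := fun x =>
    ⟨rv x.1, Submodule.subset_span ⟨x.1, (hS x.1 x.2).1, rfl⟩⟩
  have hsep : ∀ x y : {x // x ∈ S}, x ≠ y → t ≤ ‖f x - f y‖ := by
    intro x y hxy
    have h1 : ‖f x - f y‖ = ‖rv (x.1 - y.1)‖ := by
      rw [rv_sub]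
      rfl
    rw [h1]
    apply hmin
    · intro h
      exact hxy (Subtype.ext (sub_eq_zero.1 h))
    · rw [pt_sub]
      exact Submodule.sub_mem _ (hS x.1 x.2).1 (hS y.1 y.2).1
  have hinj : Function.Injective f := by
    intro x y h
    by_contra hxy
    have h1 := hsep x y hxy
    rw [h, sub_self, norm_zero] at h1
    linarith
  have h1 := card_le_of_separated (Finset.univ.image f) t M ht hM (by
      intro c hc
      obtain ⟨x, -, rfl⟩ := Finset.mem_image.1 hc
      exact (hS x.1 x.2).2) (by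
      intro c hc c' hc' hne
      obtain ⟨x, -, rfl⟩ := Finset.mem_image.1 hc
      obtain ⟨y, -, rfl⟩ := Finset.mem_image.1 hc'
      exact hsep x y fun h => hne (by rw [h]))
  rw [Finset.card_image_of_injective _ hinj, Finset.card_univ, Fintype.card_coe] at h1
  refine h1.trans (pow_le_pow_right₀ ?_ (finrank_rs hv U hU))
  have : 0 ≤ 2 * M / t := by positivity
  linarith

end Pool.Agent.FCM
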