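import Pool.Agent.Helper53_FCM.Energy

/-!
Few distances force complex multiplication: lines with a reflection inside the zero set of a
polynomial of degree two.
-/

set_option autoImplicit false

namespace Pool.Agent.FCM

open Module Complex ComplexConjugate Finset

variable {d : ℕ} {v : Fin d → ℂ}

open Classical in
/-- zeros of a polynomial of degree at most `2` in the box -/
theorem zeros_le (p : MvPolynomial (Fin (d + 1)) ℝ) (hp : p ≠ 0) (hd : p.totalDegree ≤ 2) (M : ℕ) :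
    ((bx (d + 1) M).filter fun x => MvPolynomial.eval (rv x) p = 0).card ≤ 2 * (2 * M + 1) ^ d := by
  set S : Finset ℝ := (Finset.Icc (-(M : ℤ)) M).image (fun z : ℤ => (z : ℝ)) with hS
  have hcS : S.card = 2 * M + 1 := by
    rw [hS, Finset.card_image_of_injective _ Int.cast_injective, Int.card_Icc]
    omega
  have h1 : ((bx (d + 1) M).filter fun x => MvPolynomial.eval (rv x) p = 0).card ≤
      ((Fintype.piFinset fun _ : Fin (d + 1) => S).filter fun f =>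
        MvPolynomial.eval f p = 0).card := by
    apply Finset.card_le_card_of_injOn rv
    · intro x hx
      obtain ⟨h2, h3⟩ := Finset.mem_filter.1 hx
      refine Finset.mem_filter.2 ⟨?_, h3⟩
      rw [Fintype.mem_piFinset]
      intro i
      exact Finset.mem_image.2 ⟨x i, Finset.mem_Icc.2 (abs_le.1 (mem_bx.1 h2 i)), rfl⟩
    · intro x _ y _ h
      funext i
      have h4 : (x i : ℝ) = (y i : ℝ) := congrFun h i
      exact_mod_cast h4
  have h2 := MvPolynomial.schwartz_zippel_totalDegree hp S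
  have h3 : (0 : ℚ≥0) < (S.card : ℚ≥0) := by
    rw [hcS]
    positivity
  have h4 : (0 : ℚ≥0) < (S.card : ℚ≥0) ^ (d + 1) := pow_pos h3 _
  rw [div_le_div_iff₀ h4 h3, pow_succ, ← mul_assoc] at h2
  have h5 := le_of_mul_le_mul_right h2 h3
  have h6 : ((Fintype.piFinset fun _ : Fin (d + 1) => S).filter fun f =>
        MvPolynomial.eval f p = 0).card ≤ p.totalDegree * S.card ^ d := by
    exact_mod_cast h5
  calc _ ≤ _ := h1
    _ ≤ p.totalDegree * S.card ^ d := h6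
    _ ≤ 2 * (2 * M + 1) ^ d := by
        rw [hcS]
        exact Nat.mul_le_mul_right _ hd

/-- sum over a sparse set of nonzero vectors -/
theorem sum_sparse (k M : ℕ) (Z : Finset (Fin (k + 1) → ℤ)) (h0 : ∀ u ∈ Z, u ≠ 0)
    (hM : ∀ u ∈ Z, u ∈ bx (k + 1) M)
    (hZ : ∀ T : ℕ, (Z.filter fun u => u ∈ bx (k + 1) T).card ≤ 2 * (2 * T + 1) ^ k) :
    ∑ u ∈ Z, (1 / ‖rv u‖) ^ (k + 1) ≤ 4 * 5 ^ k := by
  classical
  set j : (Fin (k + 1) → ℤ) → ℕ := fun u => Nat.log 2 ⌊‖rv u‖⌋₊ with hj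
  have hlow : ∀ u ∈ Z, (2 : ℝ) ^ (j u) ≤ ‖rv u‖ := by
    intro u hu
    have h1 := one_le_rv (h0 u hu)
    have h2 : ⌊‖rv u‖⌋₊ ≠ 0 := by
      have := Nat.floor_pos.2 h1
      omega
    have h3 : 2 ^ (j u) ≤ ⌊‖rv u‖⌋₊ := Nat.pow_log_le_self 2 h2
    calc (2 : ℝ) ^ (j u) = ((2 ^ (j u) : ℕ) : ℝ) := by push_cast; rfl
      _ ≤ (⌊‖rv u‖⌋₊ : ℝ) := by exact_mod_cast h3
      _ ≤ ‖rv u‖ := Nat.floor_le (norm_nonneg _)
  have hup : ∀ u ∈ Z, u ∈ bx (k + 1) (2 ^ (j u + 1)) := by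
    intro u hu
    rw [mem_bx_iff_rv]
    have h3 : ⌊‖rv u‖⌋₊ < 2 ^ (j u + 1) := Nat.lt_pow_succ_log_self (by norm_num) _
    have h4 : ‖rv u‖ < ⌊‖rv u‖⌋₊ + 1 := Nat.lt_floor_add_one _
    have h5 : ((⌊‖rv u‖⌋₊ : ℝ)) + 1 ≤ ((2 ^ (j u + 1) : ℕ) : ℝ) := by exact_mod_cast h3
    linarith
  have hrange : ∀ u ∈ Z, j u ∈ Finset.range (M + 1) := by
    intro u hu
    rw [Finset.mem_range]
    have h1 := hlow u hu
    have h2 := mem_bx_iff_rv.1 (hM u hu)
    have h3 : ((j u : ℕ) : ℝ) < 2 ^ (j u) := by exact_mod_cast Nat.lt_two_pow_self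
    have h4 : ((j u : ℕ) : ℝ) < M := by linarith
    have h5 : j u < M := by exact_mod_cast h4
    omega
  rw [← Finset.sum_fiberwise_of_maps_to hrange]
  have hb : ∀ i ∈ Finset.range (M + 1), ∑ u ∈ Z.filter (fun u => j u = i),
      (1 / ‖rv u‖) ^ (k + 1) ≤ 2 * 5 ^ k * (1 / 2) ^ i := by
    intro i _
    have h1 : ∀ u ∈ Z.filter (fun u => j u = i), (1 / ‖rv u‖) ^ (k + 1) ≤ (1 / 2 ^ i) ^ (k + 1) := by
      intro u hu
      obtain ⟨h2, h3⟩ := Finset.mem_filter.1 hu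
      have h4 := hlow u h2
      rw [h3] at h4
      apply pow_le_pow_left₀ (by positivity)
      exact one_div_le_one_div_of_le (by positivity) h4
    have h2 : (Z.filter (fun u => j u = i)).card ≤ 2 * (2 * 2 ^ (i + 1) + 1) ^ k := by
      refine (Finset.card_le_card ?_).trans (hZ (2 ^ (i + 1)))
      intro u hu
      obtain ⟨h3, h4⟩ := Finset.mem_filter.1 hu
      have h5 := hup u h3
      rw [h4] at h5
      exact Finset.mem_filter.2 ⟨h3, h5⟩
    have h3 : ((2 * (2 * 2 ^ (i + 1) + 1) ^ k : ℕ) : ℝ) ≤ 2 * (5 * 2 ^ i) ^ k := by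
      push_cast
      apply mul_le_mul_of_nonneg_left _ (by norm_num)
      apply pow_le_pow_left₀ (by positivity)
      have : (1 : ℝ) ≤ 2 ^ i := one_le_pow₀ (by norm_num)
      rw [pow_succ]
      linarith
    calc ∑ u ∈ Z.filter (fun u => j u = i), (1 / ‖rv u‖) ^ (k + 1)
        ≤ ∑ _u ∈ Z.filter (fun u => j u = i), (1 / (2 : ℝ) ^ i) ^ (k + 1) := Finset.sum_le_sum h1
      _ = ((Z.filter (fun u => j u = i)).card : ℝ) * (1 / (2 : ℝ) ^ i) ^ (k + 1) := by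
          rw [Finset.sum_const, nsmul_eq_mul]
      _ ≤ ((2 * (2 * 2 ^ (i + 1) + 1) ^ k : ℕ) : ℝ) * (1 / (2 : ℝ) ^ i) ^ (k + 1) := by
          apply mul_le_mul_of_nonneg_right _ (by positivity)
          exact_mod_cast h2
      _ ≤ (2 * (5 * 2 ^ i) ^ k) * (1 / (2 : ℝ) ^ i) ^ (k + 1) :=
          mul_le_mul_of_nonneg_right h3 (by positivity)
      _ = 2 * 5 ^ k * (1 / 2) ^ i := by
          rw [mul_pow, pow_succ (1 / (2 : ℝ) ^ i), one_div_pow, one_div_pow]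
          field_simp
  calc _ ≤ ∑ i ∈ Finset.range (M + 1), 2 * (5 : ℝ) ^ k * (1 / 2) ^ i := Finset.sum_le_sum hb
    _ = 2 * 5 ^ k * ∑ i ∈ Finset.range (M + 1), (1 / 2 : ℝ) ^ i := by rw [Finset.mul_sum]
    _ ≤ 2 * 5 ^ k * 2 := by
        apply mul_le_mul_of_nonneg_left _ (by positivity)
        exact sum_geometric_two_le _
    _ = 4 * 5 ^ k := by ring

/-- lines with a reflection inside the zero set of a polynomial of degree two -/
theorem card_RR_two (hv : LinearIndependent ℚ v) (M : ℕ)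
    (p : MvPolynomial (Fin d) ℝ) (hp : p ≠ 0) (hd : p.totalDegree ≤ 2)
    (hz : ∀ x : Fin d → ℤ, x ≠ 0 → Ref (VQ v) (pt v x) → MvPolynomial.eval (rv x) p = 0) :
    ((RR v M).card : ℝ) ≤ 8 * 15 ^ d * M ^ d := by
  classical
  rcases Nat.eq_zero_or_pos d with hd0 | hd0
  · subst hd0
    have h1 : RR v M = ∅ := by
      rw [Finset.eq_empty_iff_forall_notMem]
      intro q hq
      exact (Finset.mem_filter.1 hq).2.1 (Subsingleton.elim _ _)
    rw [h1, Finset.card_empty, Nat.cast_zero]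
    positivity
  obtain ⟨k, rfl⟩ : ∃ k, d = k + 1 := ⟨d - 1, by omega⟩
  set G := (bx (k + 1) M).filter fun u => u ≠ 0 ∧ mn v u ∧ Ref (VQ v) (pt v u) with hG
  have hcov : RR v M ⊆ G.biUnion fun u => AB v M u := by
    intro q hq
    obtain ⟨h1, h2, h3, h4⟩ := Finset.mem_filter.1 hq
    obtain ⟨u, hu1, hu2, hu3, hu4, hu5⟩ := cover hv h1 h2
    rw [Finset.mem_biUnion]
    exact ⟨u, Finset.mem_filter.2 ⟨hu1, hu2, hu3, hu4.2 h4⟩, hu5⟩
  have hone : ∀ u ∈ G, ((AB v M u).card : ℝ) ≤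
      2 * (3 * M) ^ (k + 1) * (1 / ‖rv u‖) ^ (k + 1) := by
    intro u hu
    obtain ⟨h1, h2, h3, h4⟩ := Finset.mem_filter.1 hu
    exact card_AB hv h1 h2 h3 (sum_of_ref hv (pt_ne_zero hv h2) h4).le
  have hsum : ((RR v M).card : ℝ) ≤
      ∑ u ∈ G, 2 * (3 * (M : ℝ)) ^ (k + 1) * (1 / ‖rv u‖) ^ (k + 1) := by
    have h1 : (RR v M).card ≤ ∑ u ∈ G, (AB v M u).card :=
      (Finset.card_le_card hcov).trans Finset.card_biUnion_le
    calc ((RR v M).card : ℝ) ≤ ((∑ u ∈ G, (AB v M u).card : ℕ) : ℝ) := by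
          exact_mod_cast h1
      _ = ∑ u ∈ G, ((AB v M u).card : ℝ) := by push_cast; rfl
      _ ≤ _ := Finset.sum_le_sum hone
  have hsp : ∑ u ∈ G, (1 / ‖rv u‖) ^ (k + 1) ≤ 4 * 5 ^ k := by
    apply sum_sparse k M G
    · intro u hu
      exact (Finset.mem_filter.1 hu).2.1
    · intro u hu
      exact (Finset.mem_filter.1 hu).1
    · intro T
      refine (Finset.card_le_card ?_).trans (zeros_le p hp hd T)
      intro u hu
      obtain ⟨h1, h2⟩ := Finset.mem_filter.1 hu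
      obtain ⟨-, h3, -, h4⟩ := Finset.mem_filter.1 h1
      exact Finset.mem_filter.2 ⟨h2, hz u h3 h4⟩
  calc ((RR v M).card : ℝ) ≤ _ := hsum
    _ = 2 * (3 * (M : ℝ)) ^ (k + 1) * ∑ u ∈ G, (1 / ‖rv u‖) ^ (k + 1) := by
        rw [Finset.mul_sum]
    _ ≤ 2 * (3 * (M : ℝ)) ^ (k + 1) * (4 * 5 ^ k) :=
        mul_le_mul_of_nonneg_left hsp (by positivity)
    _ ≤ 2 * (3 * (M : ℝ)) ^ (k + 1) * (4 * 5 ^ (k + 1)) := by
        apply mul_le_mul_of_nonneg_left _ (by positivity)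
        apply mul_le_mul_of_nonneg_left _ (by norm_num)
        exact pow_le_pow_right₀ (by norm_num) (Nat.le_succ k)
    _ = 8 * 15 ^ (k + 1) * M ^ (k + 1) := by
        rw [mul_pow, show (15 : ℝ) = 3 * 5 by norm_num, mul_pow]
        ring

end Pool.Agent.FCM
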